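import Pool.Agent.Lib.MP_d81877_alW.BrTrace
import Pool.Agent.Lib.MP_d81877_alM.Defs
import Pool.Agent.Lib.MP_d81877_alT2.Cyc

/-!
MP_d81877_al, part D, [T3]: the map `p` as a sum over words with trace coefficients.
-/

namespace D81877W

open Finset Function Matrix MP_d81877_alI MP_d81877_alT2 D81877M

variable {ι : Type*} [LinearOrder ι] {K : Type*} [Field K]

/-- the left letter given by a set of sites -/
def ind (I : Finset ι) (x : ι) : Fin 2 := if x ∈ I then 1 else 0

theorem ind_one {I : Finset ι} {x : ι} : ind I x = 1 ↔ x ∈ I := by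
  unfold ind
  split_ifs with h <;> simp [h]

theorem ltr_injective : Function.Injective (ltr : (Fin 4 → Finset ι) → ι → Finset (Fin 4)) := by
  intro S T h
  funext j
  ext x
  rw [← mem_ltr, ← mem_ltr, h]

theorem mem_sl_zero (a r : Fin 2) : (0 : Fin 4) ∈ sl a r ↔ a = 0 := by
  revert a r; decide
theorem mem_sl_one (a r : Fin 2) : (1 : Fin 4) ∈ sl a r ↔ a = 1 := by
  revert a r; decide
theorem mem_sl_two (a r : Fin 2) : (2 : Fin 4) ∈ sl a r ↔ r = 0 := by
  revert a r; decide
theorem mem_sl_three (a r : Fin 2) : (3 : Fin 4) ∈ sl a r ↔ r = 1 := by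
  revert a r; decide

theorem fin2_zero_iff (a : Fin 2) : a = 0 ↔ ¬ a = 1 := by
  revert a; decide

/-- the letters of the words occurring in `p` -/
theorem ltr_tup {V A B I : Finset ι} (hA : A ⊆ V) (hB : B ⊆ V) (hI : I ⊆ symmDiff A B)
    (x : ι) :
    ltr (tup V A B I (D81877M.cyc (B \ A))) x
      = if x ∈ symmDiff A B then sl (ind I x) (ind I ((srt (B \ A)).formPerm x))
        else if x ∈ A then {2, 3} else if x ∈ V then {0, 1} else ∅ := by
  have hmS : ∀ t, t ∈ symmDiff A B ↔ (t ∈ A ∧ t ∉ B) ∨ (t ∈ B ∧ t ∉ A) := by
    intro t; rw [Finset.mem_symmDiff]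
  have hSV : symmDiff A B ⊆ V := by
    intro t ht
    rcases (hmS t).1 ht with h | h
    · exact hA h.1
    · exact hB h.1
  set c : Equiv.Perm ι := D81877M.cyc (B \ A) with hc
  have hcm : ∀ t ∈ symmDiff A B, c t ∈ symmDiff A B := by
    apply MP_d81877_alT2.cyc_mem (C := B \ A)
    intro t ht
    rw [hmS]
    exact Or.inr (Finset.mem_sdiff.1 ht)
  have hJ : I.image c ⊆ symmDiff A B := by
    intro t ht
    obtain ⟨u, hu, rfl⟩ := Finset.mem_image.1 ht
    exact hcm u (hI hu)
  have hJm : ∀ t, t ∈ I.image c ↔ (srt (B \ A)).formPerm t ∈ I := by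
    intro t
    rw [Finset.mem_image]
    constructor
    · rintro ⟨u, hu, rfl⟩
      have : (srt (B \ A)).formPerm (c u) = u := by
        rw [hc]
        change (srt (B \ A)).formPerm (((srt (B \ A)).formPerm)⁻¹ u) = u
        simp
      rw [this]
      exact hu
    · intro h
      refine ⟨_, h, ?_⟩
      rw [hc]
      change ((srt (B \ A)).formPerm)⁻¹ ((srt (B \ A)).formPerm t) = t
      simp
  ext k
  rw [mem_ltr]
  by_cases hS : x ∈ symmDiff A B
  · rw [if_pos hS]
    have h1 : x ∉ V \ (A ∪ B) := by
      rw [Finset.mem_sdiff, Finset.mem_union]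
      rintro ⟨_, h2⟩
      rcases (hmS x).1 hS with h | h
      · exact h2 (Or.inl h.1)
      · exact h2 (Or.inr h.1)
    have h2 : x ∉ A ∩ B := by
      rw [Finset.mem_inter]
      rintro ⟨h3, h4⟩
      rcases (hmS x).1 hS with h | h
      · exact h.2 h4
      · exact h.2 h3
    fin_cases k
    · change x ∈ (V \ (A ∪ B)) ∪ (symmDiff A B \ I) ↔ (0 : Fin 4) ∈ _
      rw [mem_sl_zero, fin2_zero_iff, ind_one, Finset.mem_union, Finset.mem_sdiff (s := symmDiff A B)]
      tauto
    · change x ∈ (V \ (A ∪ B)) ∪ I ↔ (1 : Fin 4) ∈ _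
      rw [mem_sl_one, ind_one, Finset.mem_union]
      tauto
    · change x ∈ (A ∩ B) ∪ (symmDiff A B \ I.image c) ↔ (2 : Fin 4) ∈ _
      rw [mem_sl_two, fin2_zero_iff, ind_one, Finset.mem_union,
        Finset.mem_sdiff (s := symmDiff A B), hJm]
      tauto
    · change x ∈ (A ∩ B) ∪ I.image c ↔ (3 : Fin 4) ∈ _
      rw [mem_sl_three, ind_one, Finset.mem_union, hJm]
      tauto
  · rw [if_neg hS]
    have hxI : x ∉ I := fun h => hS (hI h)
    have hxJ : x ∉ I.image c := fun h => hS (hJ h)
    by_cases hxA : x ∈ A
    · rw [if_pos hxA]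
      have hxB : x ∈ B := by
        by_contra h
        exact hS ((hmS x).2 (Or.inl ⟨hxA, h⟩))
      have h1 : x ∉ V \ (A ∪ B) := by
        rw [Finset.mem_sdiff, Finset.mem_union]
        rintro ⟨_, h2⟩
        exact h2 (Or.inl hxA)
      have h2 : x ∈ A ∩ B := Finset.mem_inter.2 ⟨hxA, hxB⟩
      fin_cases k
      · change x ∈ (V \ (A ∪ B)) ∪ (symmDiff A B \ I) ↔ _
        simp only [Finset.mem_union, h1, Finset.mem_sdiff (s := symmDiff A B), hS, false_and,
          or_false, false_iff]
        simp
      · change x ∈ (V \ (A ∪ B)) ∪ I ↔ _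
        simp only [Finset.mem_union, h1, hxI, or_false, false_iff]
        simp
      · change x ∈ (A ∩ B) ∪ (symmDiff A B \ I.image c) ↔ _
        simp only [Finset.mem_union, h2, true_or, true_iff]
        simp
      · change x ∈ (A ∩ B) ∪ I.image c ↔ _
        simp only [Finset.mem_union, h2, true_or, true_iff]
        simp
    · rw [if_neg hxA]
      have hxB : x ∉ B := fun h => hS ((hmS x).2 (Or.inr ⟨h, hxA⟩))
      have h2 : x ∉ A ∩ B := fun h => hxA (Finset.mem_inter.1 h).1
      have h1 : x ∈ V \ (A ∪ B) ↔ x ∈ V := by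
        rw [Finset.mem_sdiff, Finset.mem_union]
        tauto
      fin_cases k
      · change x ∈ (V \ (A ∪ B)) ∪ (symmDiff A B \ I) ↔ _
        rw [Finset.mem_union, h1]
        by_cases hV : x ∈ V
        · simp [hV]
        · simp only [hV, Finset.mem_sdiff (s := symmDiff A B), hS, false_and, or_false, if_false]
          simp
      · change x ∈ (V \ (A ∪ B)) ∪ I ↔ _
        rw [Finset.mem_union, h1]
        by_cases hV : x ∈ V
        · simp [hV]
        · simp only [hV, hxI, or_false, if_false]
          simp
      · change x ∈ (A ∩ B) ∪ (symmDiff A B \ I.image c) ↔ _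
        rw [Finset.mem_union]
        by_cases hV : x ∈ V
        · simp only [h2, Finset.mem_sdiff (s := symmDiff A B), hS, false_and, or_false, hV, if_true]
          simp
        · simp only [h2, Finset.mem_sdiff (s := symmDiff A B), hS, false_and, or_false, hV,
            if_false]
          simp
      · change x ∈ (A ∩ B) ∪ I.image c ↔ _
        rw [Finset.mem_union]
        by_cases hV : x ∈ V
        · simp only [h2, hxJ, or_false, hV, if_true]
          simp
        · simp only [h2, hxJ, or_false, hV, if_false]
          simp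

/-- the part of the sorted list inside a subset -/
theorem filter_srt {X C : Finset ι} (h : C ⊆ X) :
    (X.sort (fun a b => a ≤ b)).filter (fun x => x ∈ C) = srt C := by
  symm
  apply srt_sublist (C := X)
  · exact List.filter_sublist
  · ext t
    simp only [List.mem_toFinset, List.mem_filter, Finset.mem_sort, decide_eq_true_eq]
    exact ⟨fun h1 => h1.2, fun h1 => ⟨h h1, h1⟩⟩

theorem reverse_reverse_sort (X : Finset ι) :
    ((X.sort (fun a b => a ≤ b)).reverse).reverse = X.sort (fun a b => a ≤ b) :=
  List.reverse_reverse _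

/-- the trace coefficient over `X` -/
theorem trace_MM_sort {X A B : Finset ι} (hB : B ⊆ X) (l : ι → Finset (Fin 4)) :
    (MM K B A l (X.sort (fun a b => a ≤ b)).reverse).trace
      = (((X.sort (fun a b => a ≤ b)).filter (fun x => x ∉ B \ A)).map (sc K B A l)).prod
        * (((srt (B \ A)).map (fun x => mu K (l x))).prod).trace := by
  rw [trace_MM, List.reverse_reverse, filter_srt (Finset.sdiff_subset.trans hB)]

theorem trace_mu {l : Finset (Fin 4)} (h : (mu K l).trace ≠ 0) : ∃ a, l = sl a a := by
  by_contra hc
  push Not at hc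
  apply h
  rw [Matrix.trace_fin_two]
  simp only [mu]
  rw [if_neg (hc 0), if_neg (hc 1), add_zero]

theorem mu_ne {l : Finset (Fin 4)} (h : mu K l ≠ 0) : ∃ a r, l = sl a r := by
  by_contra hc
  push Not at hc
  apply h
  ext a r
  simp only [mu, Matrix.zero_apply]
  rw [if_neg (hc a r)]

/-- all factors of a nonzero product are nonzero -/
theorem prod_ne {C : Type*} [MonoidWithZero C] {β : Type*} (N : β → C) :
    ∀ {L : List β}, (L.map N).prod ≠ 0 → ∀ x ∈ L, N x ≠ 0
  | [], _, x, hx => by simp at hx
  | y :: L, h, x, hx => by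
    rw [List.map_cons, List.prod_cons] at h
    rw [List.mem_cons] at hx
    rcases hx with rfl | hx
    · exact left_ne_zero_of_mul h
    · exact prod_ne N (right_ne_zero_of_mul h) x hx

/-- **bridge lemma**: the map `p` as a sum over the words that are `{0, 1}` off `X`, with trace
coefficients. -/
theorem p_eq [Fintype ι] [CharP K 2] {X V A B : Finset ι} (hA : A ⊆ X) (hB : B ⊆ X) (hX : X ⊆ V)
    (v : WW ι K) :
    D81877M.p V v A B
      = ∑ S ∈ (univ : Finset (Fin 4 → Finset ι)).filter
          (fun S => ∀ x, x ∉ X → ltr S x = if x ∈ V then {0, 1} else ∅),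
          (MM K B A (ltr S) (X.sort (fun a b => a ≤ b)).reverse).trace * v S := by
  classical
  have hmS : ∀ t, t ∈ symmDiff A B ↔ (t ∈ A ∧ t ∉ B) ∨ (t ∈ B ∧ t ∉ A) := by
    intro t; rw [Finset.mem_symmDiff]
  have hAV := hA.trans hX
  have hBV := hB.trans hX
  have hSX : symmDiff A B ⊆ X := by
    intro t ht
    rcases (hmS t).1 ht with h | h
    · exact hA h.1
    · exact hB h.1
  by_cases hC : (B \ A).Nonempty
  · have hL : srt (B \ A) ≠ [] := by
      intro h
      obtain ⟨t, ht⟩ := hC
      have : t ∈ srt (B \ A) := mem_srt.2 ht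
      rw [h] at this
      simp at this
    have hLn : (srt (B \ A)).Nodup := srt_nodup _
    have hper : ∀ t ∈ symmDiff A B, (srt (B \ A)).formPerm t ∈ symmDiff A B := by
      intro t ht
      by_cases h : t ∈ srt (B \ A)
      · have h1 := List.formPerm_apply_mem_of_mem h
        rw [hmS]
        right
        exact Finset.mem_sdiff.1 (mem_srt.1 h1)
      · rw [List.formPerm_apply_of_notMem h]
        exact ht
    have hfixA : ∀ t, t ∈ A → t ∉ B → (srt (B \ A)).formPerm t = t := by
      intro t ht ht'
      apply List.formPerm_apply_of_notMem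
      intro h
      exact ht' (Finset.mem_sdiff.1 (mem_srt.1 h)).1
    rw [D81877M.p_apply, if_pos ⟨hAV, hBV, hC⟩]
    -- the words
    set W : Finset ι → (Fin 4 → Finset ι) := fun I => tup V A B I (D81877M.cyc (B \ A)) with hW
    have hinj : ∀ I ∈ (symmDiff A B).powerset, ∀ I' ∈ (symmDiff A B).powerset, W I = W I' →
        I = I' := by
      intro I hI I' hI' h
      rw [Finset.mem_powerset] at hI hI'
      have h1 : (V \ (A ∪ B)) ∪ I = (V \ (A ∪ B)) ∪ I' := congrFun h 1
      have key : ∀ P Q : Finset ι, P ⊆ symmDiff A B → (V \ (A ∪ B)) ∪ P = (V \ (A ∪ B)) ∪ Q →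
          P ⊆ Q := by
        intro P Q hP hPQ t ht
        have h2 : t ∈ (V \ (A ∪ B)) ∪ Q := by
          rw [← hPQ]
          exact Finset.mem_union_right _ ht
        rw [Finset.mem_union, Finset.mem_sdiff, Finset.mem_union] at h2
        rcases h2 with h2 | h2
        · exfalso
          rcases (hmS t).1 (hP ht) with h3 | h3
          · exact h2.2 (Or.inl h3.1)
          · exact h2.2 (Or.inr h3.1)
        · exact h2
      exact Finset.Subset.antisymm (key I I' hI h1) (key I' I hI' h1.symm)
    have e1 : ∑ I ∈ (symmDiff A B).powerset, v (tup V A B I (D81877M.cyc (B \ A)))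
        = ∑ S ∈ ((symmDiff A B).powerset).image W, v S := by
      rw [Finset.sum_image]
      exact fun I hI I' hI' h => hinj I hI I' hI' h
    -- coefficient one on the image
    have hone : ∀ I ∈ (symmDiff A B).powerset,
        (MM K B A (ltr (W I)) (X.sort (fun a b => a ≤ b)).reverse).trace = 1 := by
      intro I hI
      rw [Finset.mem_powerset] at hI
      rw [trace_MM_sort hB]
      have hl := ltr_tup hAV hBV hI
      have f1 : (((X.sort (fun a b => a ≤ b)).filter (fun x => x ∉ B \ A)).map
          (sc K B A (ltr (W I)))).prod = 1 := by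
        apply List.prod_eq_one
        intro y hy
        rw [List.mem_map] at hy
        obtain ⟨x, hx, rfl⟩ := hy
        rw [List.mem_filter, Finset.mem_sort, decide_eq_true_eq, Finset.mem_sdiff] at hx
        obtain ⟨hxX, hxC⟩ := hx
        unfold sc
        change (if x ∈ B then (if ltr (tup V A B I (D81877M.cyc (B \ A))) x = {2, 3} then 1 else 0)
          else if x ∈ A then (mu K (ltr (tup V A B I (D81877M.cyc (B \ A))) x)).trace
          else (if ltr (tup V A B I (D81877M.cyc (B \ A))) x = {0, 1} then 1 else 0) : K) = 1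
        rw [hl x]
        by_cases hxB : x ∈ B
        · have hxA : x ∈ A := by
            by_contra h
            exact hxC ⟨hxB, h⟩
          have hxS : x ∉ symmDiff A B := by
            rw [hmS]; tauto
          rw [if_pos hxB, if_neg hxS, if_pos hxA, if_pos rfl]
        · rw [if_neg hxB]
          by_cases hxA : x ∈ A
          · have hxS : x ∈ symmDiff A B := by
              rw [hmS]; tauto
            rw [if_pos hxA, if_pos hxS, hfixA x hxA hxB, mu_sl, trace_mun, if_pos rfl]
          · have hxS : x ∉ symmDiff A B := by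
              rw [hmS]; tauto
            rw [if_neg hxA, if_neg hxS, if_neg hxA, if_pos (hX hxX), if_pos rfl]
      have f2 : (((srt (B \ A)).map (fun x => mu K (ltr (W I) x))).prod).trace = 1 := by
        have h1 : (srt (B \ A)).map (fun x => mu K (ltr (W I) x))
            = (srt (B \ A)).map (fun x => mun K (ind I x)
              (ind I ((srt (B \ A)).formPerm x))) := by
          apply List.map_congr_left
          intro x hx
          have hx' := Finset.mem_sdiff.1 (mem_srt.1 hx)
          have hxS : x ∈ symmDiff A B := (hmS x).2 (Or.inr hx')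
          change mu K (ltr (tup V A B I (D81877M.cyc (B \ A))) x) = _
          rw [hl x, if_pos hxS, mu_sl]
        rw [h1, trace_prod (srt (B \ A)) hLn hL (ind I) (fun x => ind I ((srt (B \ A)).formPerm x)),
          if_pos]
        intro z _
        rfl
      rw [f1, f2, mul_one]
    rw [e1]
    have e2 : ∑ S ∈ ((symmDiff A B).powerset).image W, v S
        = ∑ S ∈ ((symmDiff A B).powerset).image W,
          (MM K B A (ltr S) (X.sort (fun a b => a ≤ b)).reverse).trace * v S := by
      apply Finset.sum_congr rfl
      intro S hS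
      obtain ⟨I, hI, rfl⟩ := Finset.mem_image.1 hS
      rw [hone I hI, one_mul]
    rw [e2]
    apply Finset.sum_subset
    · intro S hS
      obtain ⟨I, hI, rfl⟩ := Finset.mem_image.1 hS
      rw [Finset.mem_powerset] at hI
      rw [Finset.mem_filter]
      refine ⟨Finset.mem_univ _, ?_⟩
      intro x hx
      have hxS : x ∉ symmDiff A B := fun h => hx (hSX h)
      have hxA : x ∉ A := fun h => hx (hA h)
      change ltr (tup V A B I (D81877M.cyc (B \ A))) x = _
      rw [ltr_tup hAV hBV hI, if_neg hxS, if_neg hxA]
    · intro S hS hS'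
      rw [Finset.mem_filter] at hS
      obtain ⟨_, hS⟩ := hS
      by_contra hne
      apply hS'
      have hT : (MM K B A (ltr S) (X.sort (fun a b => a ≤ b)).reverse).trace ≠ 0 :=
        left_ne_zero_of_mul hne
      rw [trace_MM_sort hB] at hT
      have hT1 := left_ne_zero_of_mul hT
      have hT2 := right_ne_zero_of_mul hT
      have hsc := prod_ne _ hT1
      have hmu : ∀ x ∈ srt (B \ A), mu K (ltr S x) ≠ 0 := by
        apply prod_ne
        intro h0
        rw [h0, Matrix.trace_zero] at hT2
        exact hT2 rfl
      -- letters on the symmetric difference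
      have hlet : ∀ x ∈ symmDiff A B, ltr S x = sl (ind (S 1) x) (ind (S 3) x) := by
        intro x hx
        have hx1 : ∃ a r, ltr S x = sl a r := by
          rcases (hmS x).1 hx with h | h
          · have h1 := hsc x (by
              rw [List.mem_filter, Finset.mem_sort, decide_eq_true_eq, Finset.mem_sdiff]
              exact ⟨hA h.1, fun h2 => h2.2 h.1⟩)
            unfold sc at h1
            rw [if_neg h.2, if_pos h.1] at h1
            obtain ⟨a, ha⟩ := trace_mu h1
            exact ⟨a, a, ha⟩
          · exact mu_ne (hmu x (mem_srt.2 (Finset.mem_sdiff.2 h)))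
        obtain ⟨a, r, hl⟩ := hx1
        have ha : a = ind (S 1) x := by
          have h1 : (1 : Fin 4) ∈ ltr S x ↔ a = 1 := by rw [hl, mem_sl_one]
          rw [mem_ltr] at h1
          unfold ind
          by_cases h2 : x ∈ S 1
          · rw [if_pos h2]; exact h1.1 h2
          · rw [if_neg h2, fin2_zero_iff]
            exact fun h3 => h2 (h1.2 h3)
        have hr : r = ind (S 3) x := by
          have h1 : (3 : Fin 4) ∈ ltr S x ↔ r = 1 := by rw [hl, mem_sl_three]
          rw [mem_ltr] at h1
          unfold ind
          by_cases h2 : x ∈ S 3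
          · rw [if_pos h2]; exact h1.1 h2
          · rw [if_neg h2, fin2_zero_iff]
            exact fun h3 => h2 (h1.2 h3)
        rw [hl, ← ha, ← hr]
      have hcycle : ∀ x ∈ symmDiff A B, ind (S 3) x = ind (S 1) ((srt (B \ A)).formPerm x) := by
        intro x hx
        rcases (hmS x).1 hx with h | h
        · rw [hfixA x h.1 h.2]
          have h1 := hsc x (by
            rw [List.mem_filter, Finset.mem_sort, decide_eq_true_eq, Finset.mem_sdiff]
            exact ⟨hA h.1, fun h2 => h2.2 h.1⟩)
          unfold sc at h1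
          rw [if_neg h.2, if_pos h.1] at h1
          obtain ⟨a, ha⟩ := trace_mu h1
          rw [hlet x hx, sl_inj] at ha
          rw [ha.1, ha.2]
        · have h1 : (srt (B \ A)).map (fun x => mu K (ltr S x))
              = (srt (B \ A)).map (fun x => mun K (ind (S 1) x) (ind (S 3) x)) := by
            apply List.map_congr_left
            intro y hy
            have hy' := Finset.mem_sdiff.1 (mem_srt.1 hy)
            rw [hlet y ((hmS y).2 (Or.inr hy')), mu_sl]
          rw [h1, trace_prod (srt (B \ A)) hLn hL (ind (S 1)) (ind (S 3))] at hT2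
          by_contra hc
          apply hT2
          rw [if_neg]
          intro h2
          exact hc (h2 x (mem_srt.2 (Finset.mem_sdiff.2 h)))
      refine Finset.mem_image.2 ⟨symmDiff A B ∩ S 1,
        Finset.mem_powerset.2 Finset.inter_subset_left, ?_⟩
      apply ltr_injective
      funext x
      change ltr (tup V A B (symmDiff A B ∩ S 1) (D81877M.cyc (B \ A))) x = ltr S x
      rw [ltr_tup hAV hBV Finset.inter_subset_left]
      by_cases hxS : x ∈ symmDiff A B
      · rw [if_pos hxS, hlet x hxS, hcycle x hxS]
        have g : ∀ y ∈ symmDiff A B, ind (symmDiff A B ∩ S 1) y = ind (S 1) y := by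
          intro y hy
          unfold ind
          simp only [Finset.mem_inter, hy, true_and]
        rw [g x hxS, g _ (hper x hxS)]
      · rw [if_neg hxS]
        by_cases hxA : x ∈ A
        · rw [if_pos hxA]
          have hxB : x ∈ B := by
            by_contra h
            exact hxS ((hmS x).2 (Or.inl ⟨hxA, h⟩))
          have h1 := hsc x (by
            rw [List.mem_filter, Finset.mem_sort, decide_eq_true_eq, Finset.mem_sdiff]
            exact ⟨hA hxA, fun h2 => h2.2 hxA⟩)
          unfold sc at h1
          rw [if_pos hxB] at h1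
          by_contra h2
          rw [if_neg (fun h3 => h2 h3.symm)] at h1
          exact h1 rfl
        · rw [if_neg hxA]
          have hxB : x ∉ B := fun h => hxS ((hmS x).2 (Or.inr ⟨h, hxA⟩))
          by_cases hxX : x ∈ X
          · rw [if_pos (hX hxX)]
            have h1 := hsc x (by
              rw [List.mem_filter, Finset.mem_sort, decide_eq_true_eq, Finset.mem_sdiff]
              exact ⟨hxX, fun h2 => hxB h2.1⟩)
            unfold sc at h1
            rw [if_neg hxB, if_neg hxA] at h1
            by_contra h2
            rw [if_neg (fun h3 => h2 h3.symm)] at h1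
            exact h1 rfl
          · exact (hS x hxX).symm
  · rw [D81877M.p_apply, if_neg (fun h => hC h.2.2)]
    symm
    apply Finset.sum_eq_zero
    intro S _
    rw [trace_MM_sort hB]
    have h0 : srt (B \ A) = [] := by
      rw [Finset.not_nonempty_iff_eq_empty.1 hC]
      exact Finset.sort_empty _
    rw [h0, List.map_nil, List.prod_nil, Matrix.trace_one, Fintype.card_fin]
    rw [Nat.cast_ofNat, CharTwo.two_eq_zero, mul_zero, zero_mul]

end D81877W
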