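import Pool.Agent.Lib.MP_d81877_alW.Mat

/-!
MP_d81877_al, part D, [T3]: traces of products of matrix units along a list and the cycle of the
list.
-/

namespace D81877W

open Finset Function Matrix

variable {ι : Type*} [DecidableEq ι] {K : Type*} [CommRing K]

/-- matrix units -/
def mun (K : Type*) [CommRing K] (a r : Fin 2) : Matrix (Fin 2) (Fin 2) K :=
  fun i j => if a = i ∧ r = j then 1 else 0

theorem sl_inj : ∀ a r b s : Fin 2, sl a r = sl b s ↔ a = b ∧ r = s := by decide

theorem mu_sl (a r : Fin 2) : mu K (sl a r) = mun K a r := by
  ext i j
  simp only [mu, mun, sl_inj]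

theorem mun_mul (a r b s : Fin 2) :
    mun K a r * mun K b s = if r = b then mun K a s else 0 := by
  ext i j
  rw [Matrix.mul_apply, Fin.sum_univ_two]
  by_cases h : r = b
  · rw [if_pos h]
    subst h
    simp only [mun]
    fin_cases r <;> fin_cases a <;> fin_cases s <;> fin_cases i <;> fin_cases j <;> simp
  · rw [if_neg h]
    simp only [mun, Matrix.zero_apply]
    fin_cases r <;> fin_cases b <;> simp_all

theorem trace_mun (a r : Fin 2) : (mun K a r).trace = if r = a then 1 else 0 := by
  rw [Matrix.trace_fin_two]
  simp only [mun]
  fin_cases a <;> fin_cases r <;> simp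

/-- the trace of a product of matrix units along a list is the indicator of the cyclic
compatibility -/
theorem trace_prod : ∀ (L : List ι), L.Nodup → L ≠ [] → ∀ a r : ι → Fin 2,
    ((L.map (fun z => mun K (a z) (r z))).prod).trace
      = if ∀ z ∈ L, r z = a (L.formPerm z) then 1 else 0
  | [], _, h, _, _ => absurd rfl h
  | [x], _, _, a, r => by
    rw [List.map_singleton, List.prod_singleton, trace_mun]
    simp
  | x :: y :: l, hn, _, a, r => by
    have hn' : (y :: l).Nodup := (List.nodup_cons.1 hn).2
    have hx : x ∉ y :: l := (List.nodup_cons.1 hn).1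
    have hy : y ∉ l := (List.nodup_cons.1 hn').1
    have hxy : x ≠ y := fun h => hx (h ▸ List.mem_cons_self ..)
    rw [List.map_cons, List.prod_cons, List.map_cons, List.prod_cons, ← mul_assoc, mun_mul]
    by_cases hr : r x = a y
    · rw [if_pos hr]
      have h1 : mun K (a x) (r y) * (l.map (fun z => mun K (a z) (r z))).prod
          = ((y :: l).map (fun z => mun K (update a y (a x) z) (r z))).prod := by
        rw [List.map_cons, List.prod_cons, update_self]
        congr 2
        apply List.map_congr_left
        intro z hz
        rw [update_of_ne]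
        rintro rfl
        exact hy hz
      rw [h1, trace_prod (y :: l) hn' (by simp) (update a y (a x)) r]
      have hiff : (∀ z ∈ y :: l, r z = update a y (a x) ((y :: l).formPerm z))
          ↔ ∀ z ∈ x :: y :: l, r z = a ((x :: y :: l).formPerm z) := by
        have hkey : ∀ z ∈ y :: l, update a y (a x) ((y :: l).formPerm z)
            = a ((x :: y :: l).formPerm z) := by
          intro z hz
          rw [List.formPerm_cons_cons, Equiv.Perm.mul_apply]
          have hw : (y :: l).formPerm z ∈ y :: l := List.formPerm_apply_mem_of_mem hz
          by_cases h2 : (y :: l).formPerm z = y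
          · rw [h2, update_self, Equiv.swap_apply_right]
          · rw [update_of_ne h2, Equiv.swap_apply_of_ne_of_ne _ h2]
            intro h3
            exact hx (h3 ▸ hw)
        have hx0 : (x :: y :: l).formPerm x = y := by
          rw [List.formPerm_cons_cons, Equiv.Perm.mul_apply,
            List.formPerm_apply_of_notMem hx, Equiv.swap_apply_left]
        constructor
        · intro h z hz
          rw [List.mem_cons] at hz
          rcases hz with rfl | hz
          · rw [hx0]; exact hr
          · rw [← hkey z hz]; exact h z hz
        · intro h z hz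
          rw [hkey z hz]
          exact h z (List.mem_cons_of_mem _ hz)
      by_cases hc : ∀ z ∈ y :: l, r z = update a y (a x) ((y :: l).formPerm z)
      · rw [if_pos hc, if_pos (hiff.1 hc)]
      · rw [if_neg hc, if_neg (fun h => hc (hiff.2 h))]
    · rw [if_neg hr, zero_mul, Matrix.trace_zero, if_neg]
      intro h
      apply hr
      have := h x (List.mem_cons_self ..)
      rw [List.formPerm_cons_cons, Equiv.Perm.mul_apply,
        List.formPerm_apply_of_notMem hx, Equiv.swap_apply_left] at this
      exact this

/-- scalar factors can be taken out of the ordered product -/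
theorem prod_scal (C : Finset ι) (c : ι → K) (N : ι → Matrix (Fin 2) (Fin 2) K) : ∀ L : List ι,
    (L.map (fun x => if x ∈ C then N x else c x • (1 : Matrix (Fin 2) (Fin 2) K))).prod
      = ((L.filter (fun x => x ∉ C)).map c).prod • ((L.filter (fun x => x ∈ C)).map N).prod
  | [] => by simp
  | x :: L => by
    rw [List.map_cons, List.prod_cons, prod_scal C c N L]
    by_cases hx : x ∈ C
    · have h1 : (x :: L).filter (fun x => x ∈ C) = x :: L.filter (fun x => x ∈ C) :=
        List.filter_cons_of_pos (by simpa using hx)
      have h2 : (x :: L).filter (fun x => x ∉ C) = L.filter (fun x => x ∉ C) :=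
        List.filter_cons_of_neg (by simpa using hx)
      rw [h1, h2, if_pos hx, List.map_cons, List.prod_cons, Matrix.mul_smul]
    · have h1 : (x :: L).filter (fun x => x ∈ C) = L.filter (fun x => x ∈ C) :=
        List.filter_cons_of_neg (by simpa using hx)
      have h2 : (x :: L).filter (fun x => x ∉ C) = x :: L.filter (fun x => x ∉ C) :=
        List.filter_cons_of_pos (by simpa using hx)
      rw [h1, h2, if_neg hx, List.map_cons, List.prod_cons, Matrix.smul_mul, one_mul,
        smul_smul]

/-- the ordered product over a decreasing list -/
theorem MM_eq (A B : Finset ι) (l : ι → Finset (Fin 4)) : ∀ W : List ι,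
    MM K A B l W = (W.reverse.map (loc K A B l)).prod
  | [] => by simp [MM]
  | x :: W => by
    rw [MM, MM_eq A B l W, List.reverse_cons, List.map_append, List.prod_append,
      List.map_singleton, List.prod_singleton]

/-- the scalar local factors -/
def sc (K : Type*) [CommRing K] (A B : Finset ι) (l : ι → Finset (Fin 4)) (x : ι) : K :=
  if x ∈ A then (if l x = {2, 3} then 1 else 0)
  else if x ∈ B then (mu K (l x)).trace else (if l x = {0, 1} then 1 else 0)

theorem loc_eq (A B : Finset ι) (l : ι → Finset (Fin 4)) (x : ι) :
    loc K A B l x = if x ∈ A \ B then mu K (l x) else sc K A B l x • 1 := by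
  unfold loc sc
  by_cases hA : x ∈ A <;> by_cases hB : x ∈ B <;> simp [hA, hB]

/-- the trace of the ordered product -/
theorem trace_MM (A B : Finset ι) (l : ι → Finset (Fin 4)) (W : List ι) :
    (MM K A B l W).trace
      = ((W.reverse.filter (fun x => x ∉ A \ B)).map (sc K A B l)).prod
        * (((W.reverse.filter (fun x => x ∈ A \ B)).map (fun x => mu K (l x))).prod).trace := by
  rw [MM_eq]
  have h : W.reverse.map (loc K A B l) = W.reverse.map (fun x => if x ∈ A \ B then mu K (l x)
      else sc K A B l x • (1 : Matrix (Fin 2) (Fin 2) K)) := by
    apply List.map_congr_left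
    intro x _
    exact loc_eq A B l x
  rw [h, prod_scal (A \ B) (sc K A B l) (fun x => mu K (l x)), Matrix.trace_smul, smul_eq_mul]

end D81877W
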