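import Pool.Agent.Lib.MP_d81877_alW.Gam
import Pool.Agent.Lib.MP_d81877_alI.Defs

/-!
Chain words of the tensor model with four columns: the coefficient of a word is an entry of the
ordered product of the matrices `gam` of its letters.  They are killed by all divided powers of
the raising operators.
-/

namespace D81877W

open Finset Function MP_d81877_alI Matrix

set_option linter.unusedSectionVars false

variable {ι : Type*} [DecidableEq ι] {K : Type*} [CommRing K]

/-- The letter of a word at a site. -/
def ltr (S : Fin 4 → Finset ι) (x : ι) : Finset (Fin 4) := univ.filter fun k => x ∈ S k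

theorem mem_ltr {S : Fin 4 → Finset ι} {x : ι} {k : Fin 4} : k ∈ ltr S x ↔ x ∈ S k := by
  simp [ltr]

/-- Moves the sites of `Y` from the column `j` to the column `j'`. -/
def mv (j j' : Fin 4) (Y : Finset ι) (S : Fin 4 → Finset ι) : Fin 4 → Finset ι :=
  update (update S j (S j \ Y)) j' (S j' ∪ Y)

theorem mem_mv {j j' : Fin 4} {Y : Finset ι} {S : Fin 4 → Finset ι} {k : Fin 4} {i : ι} :
    i ∈ mv j j' Y S k ↔
      if k = j' then i ∈ S j' ∨ i ∈ Y else if k = j then i ∈ S j ∧ i ∉ Y else i ∈ S k := by
  unfold mv
  by_cases h1 : k = j'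
  · subst h1; simp
  · rw [update_of_ne h1, if_neg h1]
    by_cases h2 : k = j
    · subst h2; simp
    · rw [update_of_ne h2, if_neg h2]

theorem rho_gam [CharP K 2] {j j' : Fin 4} (h : (j : ℕ) + 1 = j') (l : Finset (Fin 4)) :
    rho K j j' * gam K l + gam K l * rho K j j'
      = if j ∈ l ∧ j' ∉ l then gam K (exl j j' l) else 0 := by
  have h1 : rho (ZMod 2) j j' * gam (ZMod 2) l + gam (ZMod 2) l * rho (ZMod 2) j j'
      = if j ∈ l ∧ j' ∉ l then gam (ZMod 2) (exl j j' l) else 0 := by
    ext p q
    rw [rho_gam_zmod j j' h l p q]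
    split_ifs <;> rfl
  rw [rho_map, gam_map K l, gam_map K (exl j j' l), ← Matrix.map_mul, ← Matrix.map_mul,
    ← Matrix.map_add _ (map_add _), h1]
  split_ifs
  · rfl
  · exact Matrix.map_zero _ (map_zero _)

theorem rho_gam_rho [CharP K 2] {j j' : Fin 4} (h : (j : ℕ) + 1 = j') (l : Finset (Fin 4)) :
    rho K j j' * (gam K l * rho K j j') = 0 := by
  have h1 : rho (ZMod 2) j j' * (gam (ZMod 2) l * rho (ZMod 2) j j') = 0 := by
    ext p q
    exact rho_gam_rho_zmod j j' h l p q
  rw [rho_map, gam_map K l, ← Matrix.map_mul, ← Matrix.map_mul, h1]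
  exact Matrix.map_zero _ (map_zero _)

theorem rho_sq [CharP K 2] {j j' : Fin 4} (h : (j : ℕ) + 1 = j') :
    rho K j j' * rho K j j' = 0 := by
  have h1 : rho (ZMod 2) j j' * rho (ZMod 2) j j' = 0 := by
    ext p q
    exact rho_sq_zmod j j' h p q
  rw [rho_map, ← Matrix.map_mul, h1]
  exact Matrix.map_zero _ (map_zero _)

/-- The product of the matrices of the letters `l x`, over a list of sites. -/
def gprod (K : Type*) [CommRing K] (l : ι → Finset (Fin 4)) (Q : List ι) :
    Matrix II II K := (Q.map fun x => gam K (l x)).prod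

theorem gprod_cons (l : ι → Finset (Fin 4)) (x : ι) (Q : List ι) :
    gprod K l (x :: Q) = gam K (l x) * gprod K l Q := by
  simp [gprod]

theorem gprod_append (l : ι → Finset (Fin 4)) (Q Q' : List ι) :
    gprod K l (Q ++ Q') = gprod K l Q * gprod K l Q' := by
  simp [gprod]

theorem gprod_congr {l l' : ι → Finset (Fin 4)} {Q : List ι}
    (h : ∀ x ∈ Q, l x = l' x) : gprod K l Q = gprod K l' Q := by
  unfold gprod
  congr 1
  refine List.map_congr_left fun x hx => ?_
  rw [h x hx]

/-- The letters after the moves at the sites in `Y`. -/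
def mvl (j j' : Fin 4) (Y : Finset ι) (l : ι → Finset (Fin 4)) :
    ι → Finset (Fin 4) := fun x => if x ∈ Y then exl j j' (l x) else l x

/-- The sites of the list at which the move is possible. -/
def can (j j' : Fin 4) (l : ι → Finset (Fin 4)) (Q : List ι) : Finset ι :=
  Q.toFinset.filter fun x => j ∈ l x ∧ j' ∉ l x

/-- The sum over all sets of `r` moves at the sites of `Q`. -/
def gsum (K : Type*) [CommRing K] (j j' : Fin 4) (l : ι → Finset (Fin 4)) (Q : List ι)
    (r : ℕ) : Matrix II II K :=
  ∑ Y ∈ (can j j' l Q).powersetCard r, gprod K (mvl j j' Y l) Q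

theorem gsum_zero (j j' : Fin 4) (l : ι → Finset (Fin 4)) (Q : List ι) :
    gsum K j j' l Q 0 = gprod K l Q := by
  unfold gsum
  rw [powersetCard_zero, sum_singleton]
  exact gprod_congr fun x _ => by simp [mvl]

theorem gprod_mvl_cons {j j' : Fin 4} {l : ι → Finset (Fin 4)} {x : ι}
    {Q : List ι} {Y : Finset ι} (hY : x ∉ Y) :
    gprod K (mvl j j' Y l) (x :: Q) = gam K (l x) * gprod K (mvl j j' Y l) Q := by
  rw [gprod_cons]
  simp [mvl, hY]

theorem gprod_mvl_insert {j j' : Fin 4} {l : ι → Finset (Fin 4)} {x : ι}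
    {Q : List ι} {Y : Finset ι} (hx : x ∉ Q) :
    gprod K (mvl j j' (insert x Y) l) (x :: Q)
      = gam K (exl j j' (l x)) * gprod K (mvl j j' Y l) Q := by
  rw [gprod_cons]
  congr 1
  · simp [mvl]
  · refine gprod_congr fun y hy => ?_
    have : y ≠ x := by rintro rfl; exact hx hy
    simp [mvl, this]

theorem gsum_cons {j j' : Fin 4} {l : ι → Finset (Fin 4)} {x : ι}
    {Q : List ι} (hx : x ∉ Q) (r : ℕ) :
    gsum K j j' l (x :: Q) (r + 1) = gam K (l x) * gsum K j j' l Q (r + 1)
      + (if j ∈ l x ∧ j' ∉ l x then gam K (exl j j' (l x)) else 0) * gsum K j j' l Q r := by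
  unfold gsum
  have hx' : x ∉ can j j' l Q := by simp [can, hx]
  by_cases h : j ∈ l x ∧ j' ∉ l x
  · have e1 : can j j' l (x :: Q) = insert x (can j j' l Q) := by
      unfold can
      rw [List.toFinset_cons, filter_insert, if_pos h]
    rw [e1, if_pos h]
    rw [Finset.powersetCard_succ_insert hx', Finset.sum_union, Finset.sum_image, Finset.mul_sum,
      Finset.mul_sum]
    · congr 1
      · refine sum_congr rfl fun Y hY => gprod_mvl_cons fun h => hx' ((mem_powersetCard.1 hY).1 h)
      · exact sum_congr rfl fun Y _ => gprod_mvl_insert hx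
    · intro s hs t ht hst
      have h1 : x ∉ s := fun h => hx' ((Finset.mem_powersetCard.1 hs).1 h)
      have h2 : x ∉ t := fun h => hx' ((Finset.mem_powersetCard.1 ht).1 h)
      rw [← Finset.erase_insert h1, ← Finset.erase_insert h2]
      exact congrArg (Finset.erase · x) hst
    · rw [Finset.disjoint_left]
      intro s hs hs'
      obtain ⟨t, _, rfl⟩ := Finset.mem_image.1 hs'
      exact hx' ((Finset.mem_powersetCard.1 hs).1 (Finset.mem_insert_self _ _))
  · have e1 : can j j' l (x :: Q) = can j j' l Q := by
      unfold can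
      rw [List.toFinset_cons, filter_insert, if_neg h]
    rw [e1, if_neg h, zero_mul, add_zero, Finset.mul_sum]
    exact sum_congr rfl fun Y hY => gprod_mvl_cons fun h => hx' ((mem_powersetCard.1 hY).1 h)

/-- The divided powers of the raising operator on a product of letter matrices. -/
theorem gsum_eq [CharP K 2] {j j' : Fin 4} (h : (j : ℕ) + 1 = j')
    (l : ι → Finset (Fin 4)) : ∀ Q : List ι, Q.Nodup →
    gsum K j j' l Q 1 = rho K j j' * gprod K l Q + gprod K l Q * rho K j j' ∧
    gsum K j j' l Q 2 = rho K j j' * (gprod K l Q * rho K j j') ∧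
    ∀ r, gsum K j j' l Q (r + 3) = 0
  | [], _ => by
    have h0 : ∀ r, gsum K j j' l [] (r + 1) = 0 := by
      intro r
      unfold gsum
      have : can j j' l ([] : List ι) = ∅ := by simp [can]
      rw [this, powersetCard_eq_empty.2 (by simp), sum_empty]
    refine ⟨?_, ?_, fun r => h0 (r + 2)⟩
    · rw [h0 0]
      simp only [gprod, List.map_nil, List.prod_nil, mul_one, one_mul]
      ext p q
      simp [CharTwo.add_self_eq_zero]
    · rw [h0 1]
      simp only [gprod, List.map_nil, List.prod_nil, one_mul]
      exact (rho_sq h).symm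
  | x :: Q, hQ => by
    have hx : x ∉ Q := (List.nodup_cons.1 hQ).1
    obtain ⟨h1, h2, h3⟩ := gsum_eq h l Q (List.nodup_cons.1 hQ).2
    have hg := rho_gam (K := K) h (l x)
    have hgr := rho_gam_rho (K := K) h (l x)
    have hr := rho_sq (K := K) h
    have two : ∀ M : Matrix II II K, M + M = 0 := fun M => by
      ext p q; simp [CharTwo.add_self_eq_zero]
    refine ⟨?_, ?_, ?_⟩
    · rw [gsum_cons hx, gsum_zero, h1, ← hg, gprod_cons]
      set G := gam K (l x)
      set P := gprod K l Q
      set R := rho K j j'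
      calc G * (R * P + P * R) + (R * G + G * R) * P
          = R * (G * P) + G * P * R + (G * R * P + G * R * P) := by noncomm_ring
        _ = _ := by rw [two, add_zero]
    · rw [gsum_cons hx, h1, h2, ← hg, gprod_cons]
      set G := gam K (l x)
      set P := gprod K l Q
      set R := rho K j j'
      calc G * (R * (P * R)) + (R * G + G * R) * (R * P + P * R)
          = R * (G * P * R) + (G * R * P * R + G * R * P * R) + R * (G * R) * P
            + G * (R * R) * P := by noncomm_ring
        _ = _ := by rw [two, hgr, hr]; simp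
    · intro r
      rw [gsum_cons hx, h3 r]
      rcases r with _ | r
      · rw [h2, ← hg]
        set G := gam K (l x)
        set P := gprod K l Q
        set R := rho K j j'
        calc G * 0 + (R * G + G * R) * (R * (P * R))
            = R * (G * R) * P * R + G * (R * R) * P * R := by noncomm_ring
          _ = 0 := by rw [hgr, hr]; simp
      · rw [h3 r]; simp

/-- The coefficients of the matrix entry `(p, q)` of the ordered product of the sites in `Q`; the
other sites of `V` carry the letter `{0, 1}`, there is nothing off `V`. -/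
noncomputable def chainE (K : Type*) [CommRing K] (V : Finset ι) (p q : II) (Q : List ι)
    (S : Fin 4 → Finset ι) : K :=
  open Classical in
  if ∀ x, x ∉ Q → ltr S x = if x ∈ V then {0, 1} else ∅ then gprod K (ltr S) Q p q else 0

/-- The chain word of a list of sites: the last site acts first. -/
noncomputable def chain (K : Type*) [CommRing K] (V : Finset ι) (Q : List ι) (S : Fin 4 → Finset ι) : K :=
  chainE K V (Sum.inl 3) (Sum.inl 0) Q S

theorem ltr_mv (j j' : Fin 4) (Y : Finset ι) (S : Fin 4 → Finset ι)
    (hY : Y ⊆ S j \ S j') : ltr (mv j j' Y S) = mvl j j' Y (ltr S) := by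
  funext x
  ext k
  rw [mem_ltr, mem_mv]
  unfold mvl exl
  by_cases hx : x ∈ Y
  · have h1 := hY hx
    rw [mem_sdiff] at h1
    rw [if_pos hx, mem_insert, mem_erase, mem_ltr]
    by_cases h2 : k = j'
    · subst h2; simp [hx]
    · by_cases h3 : k = j
      · subst h3; simp [h2, hx]
      · simp [h2, h3]
  · rw [if_neg hx, mem_ltr]
    by_cases h2 : k = j'
    · subst h2; simp [hx]
    · by_cases h3 : k = j
      · subst h3; simp [h2, hx]
      · simp [h2, h3]

theorem can_ltr (j j' : Fin 4) (S : Fin 4 → Finset ι) (Q : List ι) :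
    can j j' (ltr S) Q = (S j \ S j') ∩ Q.toFinset := by
  ext x
  simp [can, mem_ltr]
  tauto

/-- after a move the letter is neither empty nor `{0, 1}` -/
theorem exl_ne : ∀ j j' : Fin 4, (j : ℕ) + 1 = j' → ∀ l : Finset (Fin 4), j ∈ l → j' ∉ l →
    exl j j' l ≠ {0, 1} ∧ exl j j' l ≠ ∅ := by
  decide

/-- Entries of ordered products are primitive if the raising operators kill the two ends. -/
theorem chainE_primitive {K : Type*} [Field K] [CharP K 2] (V : Finset ι) {p q : II}
    (hp : ∀ j j' : Fin 4, (j : ℕ) + 1 = j' → ∀ k, rho K j j' p k = 0)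
    (hq : ∀ j j' : Fin 4, (j : ℕ) + 1 = j' → ∀ k, rho K j j' k q = 0)
    {Q : List ι} (hQ : Q.Nodup) : Prm (chainE K V p q Q) := by
  classical
  intro j j' hjj r hr S
  change ∑ Y ∈ (S j \ S j').powersetCard r, chainE K V p q Q (mv j j' Y S) = 0
  by_cases hoff : ∀ x, x ∉ Q → ltr S x = if x ∈ V then {0, 1} else ∅
  · have key : ∑ Y ∈ (S j \ S j').powersetCard r, chainE K V p q Q (mv j j' Y S)
        = ∑ Y ∈ (can j j' (ltr S) Q).powersetCard r,
          gprod K (mvl j j' Y (ltr S)) Q p q := by
      rw [can_ltr]
      symm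
      apply Finset.sum_subset_zero_on_sdiff
      · exact powersetCard_mono inter_subset_left
      · intro Y hY
        rw [mem_sdiff, mem_powersetCard, mem_powersetCard] at hY
        obtain ⟨⟨hY1, hY2⟩, hY3⟩ := hY
        have : ∃ x ∈ Y, x ∉ Q := by
          by_contra hcon
          push Not at hcon
          exact hY3 ⟨subset_inter hY1 fun x hx => List.mem_toFinset.2 (hcon x hx), hY2⟩
        obtain ⟨x, hx, hxQ⟩ := this
        unfold chainE
        rw [if_neg]
        intro hcon
        have h1 := hcon x hxQ
        rw [ltr_mv j j' Y S hY1] at h1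
        have h2 := hY1 hx
        rw [mem_sdiff, ← mem_ltr, ← mem_ltr] at h2
        unfold mvl at h1
        rw [if_pos hx] at h1
        have h3 := exl_ne j j' hjj (ltr S x) h2.1 h2.2
        split_ifs at h1
        · exact h3.1 h1
        · exact h3.2 h1
      · intro Y hY
        rw [mem_powersetCard] at hY
        have hY1 : Y ⊆ S j \ S j' := hY.1.trans inter_subset_left
        unfold chainE
        rw [ltr_mv j j' Y S hY1, if_pos]
        intro x hx
        have : x ∉ Y := fun h => hx (List.mem_toFinset.1 (mem_inter.1 (hY.1 h)).2)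
        unfold mvl
        rw [if_neg this, hoff x hx]
    rw [key]
    have h1 : ∑ Y ∈ (can j j' (ltr S) Q).powersetCard r,
          gprod K (mvl j j' Y (ltr S)) Q p q = gsum K j j' (ltr S) Q r p q := by
      unfold gsum
      rw [Matrix.sum_apply]
    rw [h1]
    obtain ⟨g1, g2, g3⟩ := gsum_eq (K := K) hjj (ltr S) Q hQ
    match r, hr with
    | 1, _ =>
      rw [g1, Matrix.add_apply, Matrix.mul_apply, Matrix.mul_apply]
      simp [hp j j' hjj, hq j j' hjj]
    | 2, _ =>
      rw [g2, Matrix.mul_apply]
      simp [hp j j' hjj]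
    | r + 3, _ => rw [g3 r]; rfl
  · refine sum_eq_zero fun Y hY => ?_
    rw [mem_powersetCard] at hY
    push Not at hoff
    obtain ⟨x, hxQ, hx⟩ := hoff
    unfold chainE
    rw [if_neg]
    intro hcon
    have h1 := hcon x hxQ
    rw [ltr_mv j j' Y S hY.1] at h1
    unfold mvl at h1
    by_cases hxY : x ∈ Y
    · rw [if_pos hxY] at h1
      have h2 := hY.1 hxY
      rw [mem_sdiff, ← mem_ltr, ← mem_ltr] at h2
      have h3 := exl_ne j j' hjj (ltr S x) h2.1 h2.2
      split_ifs at h1
      · exact h3.1 h1
      · exact h3.2 h1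
    · rw [if_neg hxY] at h1
      exact hx h1

theorem chain_primitive {K : Type*} [Field K] [CharP K 2] (V : Finset ι) {Q : List ι}
    (hQ : Q.Nodup) : Prm (chain K V Q) := by
  refine chainE_primitive V ?_ ?_ hQ
  · intro j j' h k
    rcases k with k | k
    · simp only [rho]
      rw [if_neg]
      rintro ⟨h1, -⟩
      subst h1
      have := j'.isLt
      simp at h
      omega
    · rfl
  · intro j j' h k
    rcases k with k | k
    · simp only [rho]
      rw [if_neg]
      rintro ⟨-, h1⟩
      subst h1
      simp at h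
    · rfl

end D81877W
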