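import Pool.Agent.Lib.MP_d81877_alW.Mat

/-!
MP_d81877_al, part D, [T3]: for a fixed word, the chain entry is the sum over all `(A, B)` of the
coefficients of `e θ^X` times the matrix products.
-/

namespace D81877W

open Finset Function Matrix

set_option linter.unusedSectionVars false

variable {ι : Type*} [DecidableEq ι] {K : Type*} [CommRing K]

theorem tv_congr {A B A' B' : Finset ι} : ∀ W : List ι,
    (∀ y ∈ W, (y ∈ A ↔ y ∈ A') ∧ (y ∈ B ↔ y ∈ B')) → tv K A B W = tv K A' B' W
  | [], _ => rfl
  | x :: W, h => by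
    have h1 := h x (List.mem_cons_self ..)
    have h2 := tv_congr W fun y hy => h y (List.mem_cons_of_mem _ hy)
    simp only [tv, h2, h1.1, h1.2]

theorem dv_congr {A B A' B' : Finset ι} : ∀ W : List ι,
    (∀ y ∈ W, (y ∈ A ↔ y ∈ A') ∧ (y ∈ B ↔ y ∈ B')) → dv K A B W = dv K A' B' W
  | [], _ => rfl
  | x :: W, h => by
    have h1 := h x (List.mem_cons_self ..)
    have h2 := dv_congr W fun y hy => h y (List.mem_cons_of_mem _ hy)
    have h3 : tv K A B W = tv K A' B' W := tv_congr W fun y hy => h y (List.mem_cons_of_mem _ hy)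
    simp only [dv, h2, h3, h1.1, h1.2]

theorem MM_congr {A B A' B' : Finset ι} {l l' : ι → Finset (Fin 4)} : ∀ W : List ι,
    (∀ y ∈ W, (y ∈ A ↔ y ∈ A') ∧ (y ∈ B ↔ y ∈ B') ∧ l y = l' y) →
      MM K A B l W = MM K A' B' l' W
  | [], _ => rfl
  | x :: W, h => by
    have h1 := h x (List.mem_cons_self ..)
    have h2 := MM_congr W fun y hy => h y (List.mem_cons_of_mem _ hy)
    simp only [MM, h2, loc, h1.1, h1.2.1, h1.2.2]

/-- The sum over all `(A, B)` of the coefficients of `θ^W` times the matrix products. -/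
def sT (K : Type*) [CommRing K] (l : ι → Finset (Fin 4)) (W : List ι) :
    Matrix (Fin 2) (Fin 2) K :=
  ∑ A ∈ W.toFinset.powerset, ∑ B ∈ W.toFinset.powerset, (tv K A B W).1 • MM K A B l W

/-- The sum over all `(A, B)` of the coefficients of `e θ^W` times the matrix products. -/
def sA (K : Type*) [CommRing K] (l : ι → Finset (Fin 4)) (W : List ι) :
    Matrix (Fin 2) (Fin 2) K :=
  ∑ A ∈ W.toFinset.powerset, ∑ B ∈ W.toFinset.powerset, (tv K A B W).2 • MM K A B l W

theorem sum_four {M : Type*} [AddCommMonoid M] {x : ι} {W : List ι} (hx : x ∉ W)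
    (f : Finset ι → Finset ι → M) :
    ∑ A ∈ (x :: W).toFinset.powerset, ∑ B ∈ (x :: W).toFinset.powerset, f A B =
      ∑ A ∈ W.toFinset.powerset, ∑ B ∈ W.toFinset.powerset,
        ((f A B + f A (insert x B)) + (f (insert x A) B + f (insert x A) (insert x B))) := by
  have hx' : x ∉ W.toFinset := by simpa using hx
  rw [List.toFinset_cons, Finset.sum_powerset_insert hx']
  simp only [Finset.sum_powerset_insert hx', ← Finset.sum_add_distrib]

theorem loc_ff {A B : Finset ι} {l : ι → Finset (Fin 4)} {x : ι} (hA : x ∉ A) (hB : x ∉ B) :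
    loc K A B l x = if l x = {0, 1} then 1 else 0 := by simp [loc, hA, hB]
theorem loc_ft {A B : Finset ι} {l : ι → Finset (Fin 4)} {x : ι} (hA : x ∉ A) (hB : x ∈ B) :
    loc K A B l x = (mu K (l x)).trace • 1 := by simp [loc, hA, hB]
theorem loc_tf {A B : Finset ι} {l : ι → Finset (Fin 4)} {x : ι} (hA : x ∈ A) (hB : x ∉ B) :
    loc K A B l x = mu K (l x) := by simp [loc, hA, hB]
theorem loc_tt {A B : Finset ι} {l : ι → Finset (Fin 4)} {x : ι} (hA : x ∈ A) (hB : x ∈ B) :
    loc K A B l x = if l x = {2, 3} then 1 else 0 := by simp [loc, hA, hB]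

theorem tv_insert_left {A B : Finset ι} {x : ι} {W : List ι} (hx : x ∉ W) :
    tv K (insert x A) B W = tv K A B W := by
  refine tv_congr W fun y hy => ⟨?_, Iff.rfl⟩
  have : y ≠ x := by rintro rfl; exact hx hy
  simp [this]

theorem tv_insert_right {A B : Finset ι} {x : ι} {W : List ι} (hx : x ∉ W) :
    tv K A (insert x B) W = tv K A B W := by
  refine tv_congr W fun y hy => ⟨Iff.rfl, ?_⟩
  have : y ≠ x := by rintro rfl; exact hx hy
  simp [this]

theorem MM_insert_left {A B : Finset ι} {l : ι → Finset (Fin 4)} {x : ι} {W : List ι}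
    (hx : x ∉ W) : MM K (insert x A) B l W = MM K A B l W := by
  refine MM_congr W fun y hy => ⟨?_, Iff.rfl, rfl⟩
  have : y ≠ x := by rintro rfl; exact hx hy
  simp [this]

theorem MM_insert_right {A B : Finset ι} {l : ι → Finset (Fin 4)} {x : ι} {W : List ι}
    (hx : x ∉ W) : MM K A (insert x B) l W = MM K A B l W := by
  refine MM_congr W fun y hy => ⟨Iff.rfl, ?_, rfl⟩
  have : y ≠ x := by rintro rfl; exact hx hy
  simp [this]

theorem sT_cons {l : ι → Finset (Fin 4)} {x : ι} {W : List ι} (hx : x ∉ W) :
    sT K l (x :: W) = sT K l W * (mu K (l x) + ((W.length : K) * (mu K (l x)).trace) • 1)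
      + if l x = {2, 3} then sA K l W else 0 := by
  unfold sT sA
  rw [sum_four hx]
  have key : ∀ A ∈ W.toFinset.powerset, ∀ B ∈ W.toFinset.powerset,
      (((tv K A B (x :: W)).1 • MM K A B l (x :: W)
        + (tv K A (insert x B) (x :: W)).1 • MM K A (insert x B) l (x :: W))
      + ((tv K (insert x A) B (x :: W)).1 • MM K (insert x A) B l (x :: W)
        + (tv K (insert x A) (insert x B) (x :: W)).1
          • MM K (insert x A) (insert x B) l (x :: W)))
      = (tv K A B W).1 • MM K A B l W
          * (mu K (l x) + ((W.length : K) * (mu K (l x)).trace) • 1)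
        + if l x = {2, 3} then (tv K A B W).2 • MM K A B l W else 0 := by
    intro A hA B hB
    have hxA : x ∉ A := fun h => hx (List.mem_toFinset.1 (mem_powerset.1 hA h))
    have hxB : x ∉ B := fun h => hx (List.mem_toFinset.1 (mem_powerset.1 hB h))
    have i1 : x ∈ insert x A := mem_insert_self _ _
    have i2 : x ∈ insert x B := mem_insert_self _ _
    simp only [tv, MM, hxA, hxB, i1, i2, if_true, if_false, loc_ff hxA hxB, loc_ft hxA i2,
      loc_tf i1 hxB, loc_tt i1 i2, tv_insert_left hx, tv_insert_right hx, MM_insert_left hx,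
      MM_insert_right hx, zero_smul, zero_add]
    rw [mul_add, Matrix.smul_mul, Matrix.mul_smul, Matrix.mul_smul, Matrix.mul_one,
      Matrix.smul_mul, Matrix.mul_one, smul_smul, smul_smul]
    split_ifs with h
    · rw [mul_one, add_comm (_ • _) ((tv K A B W).1 • _ + _), add_right_comm]
      congr 2
      · congr 1
        ring
    · rw [mul_zero, smul_zero, add_zero, add_zero, add_comm]
      congr 2
      ring
  rw [Finset.sum_congr rfl fun A hA => Finset.sum_congr rfl fun B hB => key A hA B hB]
  simp only [Finset.sum_add_distrib, Finset.sum_mul]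
  congr 1
  split_ifs <;> simp

theorem sA_cons {l : ι → Finset (Fin 4)} {x : ι} {W : List ι} (hx : x ∉ W) :
    sA K l (x :: W) = sA K l W * (mu K (l x) + (((W.length : K) + 1) * (mu K (l x)).trace) • 1)
      + if l x = {0, 1} then sT K l W else 0 := by
  unfold sT sA
  rw [sum_four hx]
  have key : ∀ A ∈ W.toFinset.powerset, ∀ B ∈ W.toFinset.powerset,
      (((tv K A B (x :: W)).2 • MM K A B l (x :: W)
        + (tv K A (insert x B) (x :: W)).2 • MM K A (insert x B) l (x :: W))
      + ((tv K (insert x A) B (x :: W)).2 • MM K (insert x A) B l (x :: W)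
        + (tv K (insert x A) (insert x B) (x :: W)).2
          • MM K (insert x A) (insert x B) l (x :: W)))
      = (tv K A B W).2 • MM K A B l W
          * (mu K (l x) + (((W.length : K) + 1) * (mu K (l x)).trace) • 1)
        + if l x = {0, 1} then (tv K A B W).1 • MM K A B l W else 0 := by
    intro A hA B hB
    have hxA : x ∉ A := fun h => hx (List.mem_toFinset.1 (mem_powerset.1 hA h))
    have hxB : x ∉ B := fun h => hx (List.mem_toFinset.1 (mem_powerset.1 hB h))
    have i1 : x ∈ insert x A := mem_insert_self _ _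
    have i2 : x ∈ insert x B := mem_insert_self _ _
    simp only [tv, MM, hxA, hxB, i1, i2, if_true, if_false, loc_ff hxA hxB, loc_ft hxA i2,
      loc_tf i1 hxB, loc_tt i1 i2, tv_insert_left hx, tv_insert_right hx, MM_insert_left hx,
      MM_insert_right hx, zero_smul, add_zero]
    rw [mul_add, Matrix.smul_mul, Matrix.mul_smul, Matrix.mul_smul, Matrix.mul_one,
      Matrix.smul_mul, Matrix.mul_one, smul_smul, smul_smul]
    split_ifs with h
    · rw [mul_one, add_assoc, add_comm]
      congr 1
      rw [add_comm]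
      congr 2
      ring
    · rw [mul_zero, smul_zero, zero_add, add_zero, add_comm]
      congr 2
      ring
  rw [Finset.sum_congr rfl fun A hA => Finset.sum_congr rfl fun B hB => key A hA B hB]
  simp only [Finset.sum_add_distrib, Finset.sum_mul]
  congr 1
  split_ifs <;> simp

end D81877W
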