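import Pool.Agent.Lib.MP_d81877_alW.CoreB

namespace D81877W

open Finset Function Matrix

set_option linter.unusedSectionVars false

variable {ι : Type*} [DecidableEq ι] {K : Type*} [CommRing K]

theorem gam_rl (l : Finset (Fin 4)) (a b : Fin 4) :
    gam K l (Sum.inr a) (Sum.inl b) = if a ≠ b ∧ l = {a, b} then 1 else 0 := rfl

theorem gam_lr (l : Finset (Fin 4)) (a b : Fin 4) :
    gam K l (Sum.inl a) (Sum.inr b) = if a ≠ b ∧ lᶜ = {a, b} then 1 else 0 := rfl

theorem gam_ll (l : Finset (Fin 4)) (a b : Fin 4) :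
    gam K l (Sum.inl a) (Sum.inl b) = 0 := rfl

theorem gam_rr (l : Finset (Fin 4)) (a b : Fin 4) :
    gam K l (Sum.inr a) (Sum.inr b) = 0 := rfl

/-- The letters with two columns, or none of them. -/
theorem letter_cases : ∀ l : Finset (Fin 4), l = {0, 1} ∨ l = {0, 2} ∨ l = {0, 3} ∨ l = {1, 2} ∨
    l = {1, 3} ∨ l = {2, 3} ∨ (l ≠ {0, 1} ∧ l ≠ {0, 2} ∧ l ≠ {0, 3} ∧ l ≠ {1, 2} ∧
    l ≠ {1, 3} ∧ l ≠ {2, 3} ∧ (∀ a b : Fin 4, a ≠ b → l ≠ {a, b}) ∧
      ∀ a b : Fin 4, a ≠ b → lᶜ ≠ {a, b}) := by decide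

/-- One step from an even to an odd number of sites. -/
theorem step_even [CharP K 2] (l : Finset (Fin 4)) (g : Fin 4 → K) :
    (∑ b, gam K l (Sum.inr 2) (Sum.inl b) * g b
      = g 0 * mu K l 0 0 + g 1 * mu K l 1 0 + if l = {2, 3} then g 3 else 0) ∧
    (∑ b, gam K l (Sum.inr 3) (Sum.inl b) * g b
      = g 0 * mu K l 0 1 + g 1 * mu K l 1 1 + if l = {2, 3} then g 2 else 0) ∧
    (∑ b, gam K l (Sum.inr 1) (Sum.inl b) * g b
      = g 3 * mu K l 0 0 + g 2 * mu K l 1 0 + (mu K l).trace * g 3
        + if l = {0, 1} then g 0 else 0) ∧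
    (∑ b, gam K l (Sum.inr 0) (Sum.inl b) * g b
      = g 3 * mu K l 0 1 + g 2 * mu K l 1 1 + (mu K l).trace * g 2
        + if l = {0, 1} then g 1 else 0) := by
  have two : ∀ a : K, a + a = 0 := CharTwo.add_self_eq_zero
  rcases letter_cases l with h | h | h | h | h | h | h
  all_goals first
    | (subst h
       refine ⟨?_, ?_, ?_, ?_⟩ <;>
       simp +decide [Fin.sum_univ_four, gam_rl, mu, sl, Matrix.trace, Fin.sum_univ_two, two])
    | (obtain ⟨h1, h2, h3, h4, h5, h6, h7, h8⟩ := h
       have hg : ∀ a b : Fin 4, gam K l (Sum.inr a) (Sum.inl b) = 0 := by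
         intro a b
         rw [gam_rl, if_neg]
         rintro ⟨h, h'⟩
         exact h7 a b h h'
       have hm : mu K l = 0 := by
         ext a r
         unfold mu
         rw [if_neg]
         · rfl
         · fin_cases a <;> fin_cases r <;> simp [sl] <;> assumption
       refine ⟨?_, ?_, ?_, ?_⟩ <;> simp [hg, hm, h1, h6])

/-- One step from an odd to an even number of sites. -/
theorem step_odd [CharP K 2] (l : Finset (Fin 4)) (g : Fin 4 → K) :
    (∑ b, gam K l (Sum.inl 0) (Sum.inr b) * g b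
      = g 2 * mu K l 0 0 + g 3 * mu K l 1 0 + (mu K l).trace * g 2
        + if l = {2, 3} then g 1 else 0) ∧
    (∑ b, gam K l (Sum.inl 1) (Sum.inr b) * g b
      = g 2 * mu K l 0 1 + g 3 * mu K l 1 1 + (mu K l).trace * g 3
        + if l = {2, 3} then g 0 else 0) ∧
    (∑ b, gam K l (Sum.inl 3) (Sum.inr b) * g b
      = g 1 * mu K l 0 0 + g 0 * mu K l 1 0 + if l = {0, 1} then g 2 else 0) ∧
    (∑ b, gam K l (Sum.inl 2) (Sum.inr b) * g b
      = g 1 * mu K l 0 1 + g 0 * mu K l 1 1 + if l = {0, 1} then g 3 else 0) := by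
  have two : ∀ a : K, a + a = 0 := CharTwo.add_self_eq_zero
  rcases letter_cases l with h | h | h | h | h | h | h
  all_goals first
    | (subst h
       refine ⟨?_, ?_, ?_, ?_⟩ <;>
       simp +decide [Fin.sum_univ_four, gam_lr, mu, sl, Matrix.trace, Fin.sum_univ_two, two])
    | (obtain ⟨h1, h2, h3, h4, h5, h6, h7, h8⟩ := h
       have hg : ∀ a b : Fin 4, gam K l (Sum.inl a) (Sum.inr b) = 0 := by
         intro a b
         rw [gam_lr, if_neg]
         rintro ⟨h, h'⟩
         exact h8 a b h h'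
       have hm : mu K l = 0 := by
         ext a r
         unfold mu
         rw [if_neg]
         · rfl
         · fin_cases a <;> fin_cases r <;> simp [sl] <;> assumption
       refine ⟨?_, ?_, ?_, ?_⟩ <;> simp [hg, hm, h1, h6])

/-- The matrices of the letters against the two by two matrices. -/
theorem gprod_core [CharP K 2] (l : ι → Finset (Fin 4)) (i : Fin 2) : ∀ W : List ι, W.Nodup →
    (Even W.length →
      (∀ s, gprod K l W (Sum.inr s) (Sum.inl (![0, 1] i)) = 0) ∧
      gprod K l W (Sum.inl 0) (Sum.inl (![0, 1] i)) = sT K l W i 0 ∧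
      gprod K l W (Sum.inl 1) (Sum.inl (![0, 1] i)) = sT K l W i 1 ∧
      gprod K l W (Sum.inl 3) (Sum.inl (![0, 1] i)) = sA K l W i 0 ∧
      gprod K l W (Sum.inl 2) (Sum.inl (![0, 1] i)) = sA K l W i 1) ∧
    (¬ Even W.length →
      (∀ s, gprod K l W (Sum.inl s) (Sum.inl (![0, 1] i)) = 0) ∧
      gprod K l W (Sum.inr 2) (Sum.inl (![0, 1] i)) = sT K l W i 0 ∧
      gprod K l W (Sum.inr 3) (Sum.inl (![0, 1] i)) = sT K l W i 1 ∧
      gprod K l W (Sum.inr 1) (Sum.inl (![0, 1] i)) = sA K l W i 0 ∧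
      gprod K l W (Sum.inr 0) (Sum.inl (![0, 1] i)) = sA K l W i 1)
  | [], _ => by
    refine ⟨fun _ => ?_, fun h => absurd Even.zero h⟩
    fin_cases i <;> simp [gprod, sT, sA, tv, MM]
  | x :: W, hW => by
    have hx : x ∉ W := (List.nodup_cons.1 hW).1
    obtain ⟨h1, h2⟩ := gprod_core l i W (List.nodup_cons.1 hW).2
    have hexp : ∀ p : II, gprod K l (x :: W) p (Sum.inl (![0, 1] i))
        = (∑ b, gam K (l x) p (Sum.inl b) * gprod K l W (Sum.inl b) (Sum.inl (![0, 1] i)))
          + ∑ b, gam K (l x) p (Sum.inr b) * gprod K l W (Sum.inr b) (Sum.inl (![0, 1] i)) := by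
      intro p
      rw [gprod_cons, Matrix.mul_apply, Fintype.sum_sum_type]
    constructor
    · intro he
      have hodd : ¬ Even W.length := by
        rw [List.length_cons, Nat.even_add_one] at he
        exact he
      obtain ⟨g0, g1, g2, g3, g4⟩ := h2 hodd
      have hn : (W.length : K) = 1 := by
        obtain ⟨k, hk⟩ := Nat.not_even_iff_odd.1 hodd
        rw [hk]
        push_cast
        rw [CharTwo.two_eq_zero]
        simp
      have hn1 : (W.length : K) + 1 = 0 := by rw [hn]; exact CharTwo.add_self_eq_zero _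
      obtain ⟨e0, e1, e3, e2⟩ := step_odd (K := K) (l x) fun b => gprod K l W (Sum.inr b) (Sum.inl (![0, 1] i))
      have z : ∀ c, ∑ b, gam K (l x) (Sum.inl c) (Sum.inl b)
          * gprod K l W (Sum.inl b) (Sum.inl (![0, 1] i)) = 0 := fun c => by simp [gam_ll]
      refine ⟨?_, ?_, ?_, ?_, ?_⟩
      · intro s
        rw [hexp]
        simp [g0, gam_rr]
      · rw [hexp, z, zero_add, e0, sT_cons hx, hn, one_mul]
        simp only [g1, g2, g3, g4, Matrix.add_apply, Matrix.mul_apply, Fin.sum_univ_two,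
          Matrix.smul_apply, Matrix.one_apply, smul_eq_mul]
        split_ifs <;> simp_all
        all_goals ring
      · rw [hexp, z, zero_add, e1, sT_cons hx, hn, one_mul]
        simp only [g1, g2, g3, g4, Matrix.add_apply, Matrix.mul_apply, Fin.sum_univ_two,
          Matrix.smul_apply, Matrix.one_apply, smul_eq_mul]
        split_ifs <;> simp_all
        all_goals ring
      · rw [hexp, z, zero_add, e3, sA_cons hx, hn1, zero_mul, zero_smul, add_zero]
        simp only [g1, g2, g3, g4, Matrix.add_apply, Matrix.mul_apply, Fin.sum_univ_two]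
        split_ifs <;> simp_all
      · rw [hexp, z, zero_add, e2, sA_cons hx, hn1, zero_mul, zero_smul, add_zero]
        simp only [g1, g2, g3, g4, Matrix.add_apply, Matrix.mul_apply, Fin.sum_univ_two]
        split_ifs <;> simp_all
    · intro he
      have heven : Even W.length := by
        rw [List.length_cons, Nat.even_add_one, not_not] at he
        exact he
      obtain ⟨g0, g1, g2, g3, g4⟩ := h1 heven
      have hn : (W.length : K) = 0 := by
        obtain ⟨k, hk⟩ := heven
        rw [hk]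
        push_cast
        exact CharTwo.add_self_eq_zero _
      obtain ⟨e2, e3, e1, e0⟩ := step_even (K := K) (l x) fun b => gprod K l W (Sum.inl b) (Sum.inl (![0, 1] i))
      have z : ∀ c, ∑ b, gam K (l x) (Sum.inr c) (Sum.inr b)
          * gprod K l W (Sum.inr b) (Sum.inl (![0, 1] i)) = 0 := fun c => by simp [gam_rr]
      refine ⟨?_, ?_, ?_, ?_, ?_⟩
      · intro s
        rw [hexp]
        simp [g0, gam_ll]
      · rw [hexp, z, add_zero, e2, sT_cons hx, hn, zero_mul, zero_smul, add_zero]
        simp only [g1, g2, g3, g4, Matrix.add_apply, Matrix.mul_apply, Fin.sum_univ_two]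
        split_ifs <;> simp_all
      · rw [hexp, z, add_zero, e3, sT_cons hx, hn, zero_mul, zero_smul, add_zero]
        simp only [g1, g2, g3, g4, Matrix.add_apply, Matrix.mul_apply, Fin.sum_univ_two]
        split_ifs <;> simp_all
      · rw [hexp, z, add_zero, e1, sA_cons hx, hn, zero_add, one_mul]
        simp only [g1, g2, g3, g4, Matrix.add_apply, Matrix.mul_apply, Fin.sum_univ_two,
          Matrix.smul_apply, Matrix.one_apply, smul_eq_mul]
        split_ifs <;> simp_all
        all_goals ring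
      · rw [hexp, z, add_zero, e0, sA_cons hx, hn, zero_add, one_mul]
        simp only [g1, g2, g3, g4, Matrix.add_apply, Matrix.mul_apply, Fin.sum_univ_two,
          Matrix.smul_apply, Matrix.one_apply, smul_eq_mul]
        split_ifs <;> simp_all
        all_goals ring

end D81877W
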