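import Pool.Agent.Lib.MP_d81877_alW.CoreB2

/-!
MP_d81877_al, part D, [T3c]: for fixed `(A, B)`, the sum over all words of the entries of the
products of the local matrices (with `A` and `B` exchanged) times the entries of the ordered
product of the letter matrices, in terms of the coefficients of `θ^X`, `e θ^X`, `D θ^X`,
`D e θ^X`.
-/

namespace D81877W

open Finset Function Matrix

set_option linter.unusedSectionVars false

variable {ι : Type*} [DecidableEq ι] {K : Type*} [CommRing K]

section Words

variable [Fintype ι]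

/-- The words with arbitrary letters at the sites of `W` and the letters of `b` elsewhere. -/
def words (b : ι → Finset (Fin 4)) (W : List ι) : Finset (ι → Finset (Fin 4)) :=
  Fintype.piFinset fun x => if x ∈ W then univ else {b x}

theorem mem_words {b l : ι → Finset (Fin 4)} {W : List ι} :
    l ∈ words b W ↔ ∀ x, x ∉ W → l x = b x := by
  unfold words
  rw [Fintype.mem_piFinset]
  refine forall_congr' fun x => ?_
  split_ifs with h <;> simp [h]

theorem sum_words_cons {M : Type*} [AddCommMonoid M] {b : ι → Finset (Fin 4)} {x : ι}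
    {W : List ι} (hx : x ∉ W) (F : (ι → Finset (Fin 4)) → M) :
    ∑ l ∈ words b (x :: W), F l
      = ∑ l ∈ words b W, ∑ L : Finset (Fin 4), F (update l x L) := by
  rw [← Finset.sum_product']
  refine (Finset.sum_bij' (fun p _ => update p.1 x p.2) (fun l _ => (update l x (b x), l x))
    ?_ ?_ ?_ ?_ ?_).symm
  · rintro ⟨l, L⟩ h
    rw [mem_product, mem_words] at h
    rw [mem_words]
    intro y hy
    rw [List.mem_cons, not_or] at hy
    simp only [update_of_ne hy.1]
    exact h.1 y hy.2
  · intro l h
    rw [mem_words] at h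
    rw [mem_product, mem_words]
    refine ⟨fun y hy => ?_, mem_univ _⟩
    by_cases hyx : y = x
    · subst hyx; simp
    · change update l x (b x) y = b y
      rw [update_of_ne hyx]
      exact h y (by simp [hyx, hy])
  · rintro ⟨l, L⟩ h
    rw [mem_product, mem_words] at h
    have h1 : l x = b x := h.1 x hx
    ext1
    · simp only [update_idem]
      rw [← h1, update_eq_self]
    · simp
  · intro l _
    simp
  · rintro ⟨l, L⟩ _
    rfl

theorem sum_words_nil {M : Type*} [AddCommMonoid M] (b : ι → Finset (Fin 4))
    (F : (ι → Finset (Fin 4)) → M) : ∑ l ∈ words b [], F l = F b := by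
  have : words b ([] : List ι) = {b} := by
    ext l
    rw [mem_words, mem_singleton]
    refine ⟨fun h => funext fun x => h x (by simp), ?_⟩
    rintro rfl x _
    rfl
  rw [this, sum_singleton]

theorem words_nil (b : ι → Finset (Fin 4)) : words b ([] : List ι) = {b} := by
  ext l
  rw [mem_words, mem_singleton]
  refine ⟨fun h => funext fun x => h x (by simp), ?_⟩
  rintro rfl x _
  rfl

/-- Sums over the tensors with prescribed letters off `W`. -/
theorem sum_ltr {M : Type*} [AddCommMonoid M] (b : ι → Finset (Fin 4)) (W : List ι)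
    (F : (ι → Finset (Fin 4)) → M)
    [DecidablePred fun S : Fin 4 → Finset ι => ∀ x, x ∉ W → ltr S x = b x] :
    ∑ S ∈ (univ : Finset (Fin 4 → Finset ι)).filter (fun S => ∀ x, x ∉ W → ltr S x = b x),
      F (ltr S) = ∑ l ∈ words b W, F l := by
  refine Finset.sum_bij' (fun S _ => ltr S) (fun l _ => fun k => univ.filter fun x => k ∈ l x)
    ?_ ?_ ?_ ?_ ?_
  · intro S hS
    rw [mem_words]
    exact (mem_filter.1 hS).2
  · intro l hl
    rw [mem_filter]
    refine ⟨mem_univ _, fun x hx => ?_⟩
    rw [← mem_words.1 hl x hx]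
    ext k
    simp [mem_ltr]
  · intro S _
    funext k
    ext x
    simp [mem_ltr]
  · intro l _
    funext x
    ext k
    simp [mem_ltr]
  · intro S _
    rfl

/-- The sum over the words. -/
def KW (K : Type*) [CommRing K] (b : ι → Finset (Fin 4)) (A B : Finset ι) (W : List ι)
    (k i : Fin 2) (s : II) : K :=
  ∑ l ∈ words b W, MM K B A l W k i * gprod K l W s (Sum.inl 0)

theorem loc_update {A B : Finset ι} {l : ι → Finset (Fin 4)} {x : ι} {L : Finset (Fin 4)} :
    loc K A B (update l x L) x = loc K A B (fun _ => L) x := by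
  simp [loc]

theorem KW_cons {b : ι → Finset (Fin 4)} {A B : Finset ι} {x : ι} {W : List ι} (hx : x ∉ W)
    (k i : Fin 2) (s : II) :
    KW K b A B (x :: W) k i s
      = ∑ L : Finset (Fin 4), ∑ j, loc K B A (fun _ => L) x j i *
          ((∑ c, gam K L s (Sum.inl c) * KW K b A B W k j (Sum.inl c))
            + ∑ c, gam K L s (Sum.inr c) * KW K b A B W k j (Sum.inr c)) := by
  unfold KW
  rw [sum_words_cons hx, Finset.sum_comm]
  refine Finset.sum_congr rfl fun L _ => ?_
  have h1 : ∀ l : ι → Finset (Fin 4),
      MM K B A (update l x L) (x :: W) k i * gprod K (update l x L) (x :: W) s (Sum.inl 0)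
      = ∑ j, loc K B A (fun _ => L) x j i *
        ((∑ c, gam K L s (Sum.inl c) * (MM K B A l W k j * gprod K l W (Sum.inl c) (Sum.inl 0)))
          + ∑ c, gam K L s (Sum.inr c)
            * (MM K B A l W k j * gprod K l W (Sum.inr c) (Sum.inl 0))) := by
    intro l
    have e1 : MM K B A (update l x L) W = MM K B A l W := by
      refine MM_congr W fun y hy => ⟨Iff.rfl, Iff.rfl, ?_⟩
      rw [update_of_ne]
      rintro rfl; exact hx hy
    have e2 : gprod K (update l x L) W = gprod K l W := by
      refine gprod_congr fun y hy => ?_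
      rw [update_of_ne]
      rintro rfl; exact hx hy
    rw [MM, e1, loc_update, gprod_cons, e2, update_self, Matrix.mul_apply, Matrix.mul_apply,
      Fintype.sum_sum_type, Finset.sum_mul]
    refine Finset.sum_congr rfl fun j _ => ?_
    rw [mul_assoc, mul_left_comm, mul_add, Finset.mul_sum, Finset.mul_sum]
    congr 2 <;> exact Finset.sum_congr rfl fun c _ => by ring
  rw [Finset.sum_congr rfl fun l _ => h1 l, Finset.sum_comm]
  refine Finset.sum_congr rfl fun j _ => ?_
  rw [← Finset.mul_sum, Finset.sum_add_distrib]
  congr 2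
  · rw [Finset.sum_comm]
    exact Finset.sum_congr rfl fun c _ => (Finset.mul_sum _ _ _).symm
  · rw [Finset.sum_comm]
    exact Finset.sum_congr rfl fun c _ => (Finset.mul_sum _ _ _).symm


/-- Sum over all letters against the local factor, in the four cases. -/
theorem sum_loc_ff {A B : Finset ι} {x : ι} (hA : x ∉ A) (hB : x ∉ B) (i : Fin 2)
    (H : Finset (Fin 4) → Fin 2 → K) :
    ∑ L : Finset (Fin 4), ∑ j, loc K B A (fun _ => L) x j i * H L j = H {0, 1} i := by
  have : ∀ L : Finset (Fin 4), ∑ j, loc K B A (fun _ => L) x j i * H L j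
      = if L = {0, 1} then H L i else 0 := by
    intro L
    rw [loc_ff hB hA]
    split_ifs with h
    · simp [Matrix.one_apply]
    · simp
  rw [Finset.sum_congr rfl fun L _ => this L, Finset.sum_ite_eq' univ ({0, 1} : Finset (Fin 4)),
    if_pos (mem_univ _)]

theorem sum_loc_tt {A B : Finset ι} {x : ι} (hA : x ∈ A) (hB : x ∈ B) (i : Fin 2)
    (H : Finset (Fin 4) → Fin 2 → K) :
    ∑ L : Finset (Fin 4), ∑ j, loc K B A (fun _ => L) x j i * H L j = H {2, 3} i := by
  have : ∀ L : Finset (Fin 4), ∑ j, loc K B A (fun _ => L) x j i * H L j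
      = if L = {2, 3} then H L i else 0 := by
    intro L
    rw [loc_tt hB hA]
    split_ifs with h
    · simp [Matrix.one_apply]
    · simp
  rw [Finset.sum_congr rfl fun L _ => this L, Finset.sum_ite_eq' univ ({2, 3} : Finset (Fin 4)),
    if_pos (mem_univ _)]

theorem sum_loc_ft {A B : Finset ι} {x : ι} (hA : x ∉ A) (hB : x ∈ B) (i : Fin 2)
    (H : Finset (Fin 4) → Fin 2 → K) :
    ∑ L : Finset (Fin 4), ∑ j, loc K B A (fun _ => L) x j i * H L j
      = H (sl 0 i) 0 + H (sl 1 i) 1 := by
  rw [Finset.sum_comm, Fin.sum_univ_two]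
  have : ∀ j : Fin 2, ∑ L : Finset (Fin 4), loc K B A (fun _ => L) x j i * H L j
      = H (sl j i) j := by
    intro j
    simp [loc_tf hB hA, mu]
  rw [this, this]

theorem sum_loc_tf {A B : Finset ι} {x : ι} (hA : x ∈ A) (hB : x ∉ B) (i : Fin 2)
    (H : Finset (Fin 4) → Fin 2 → K) :
    ∑ L : Finset (Fin 4), ∑ j, loc K B A (fun _ => L) x j i * H L j
      = H (sl 0 0) i + H (sl 1 1) i := by
  have : ∀ L : Finset (Fin 4), ∑ j, loc K B A (fun _ => L) x j i * H L j
      = (if L = sl 0 0 then H L i else 0) + (if L = sl 1 1 then H L i else 0) := by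
    intro L
    rw [loc_ft hB hA]
    have h1 : ∑ j, ((mu K L).trace • (1 : Matrix (Fin 2) (Fin 2) K)) j i * H L j
        = (mu K L).trace * H L i := by
      fin_cases i <;> simp [Matrix.one_apply, Fin.sum_univ_two]
    have h2 : (mu K L).trace = (if L = sl 0 0 then 1 else 0) + (if L = sl 1 1 then 1 else 0) := by
      rw [Matrix.trace_fin_two]
      rfl
    rw [h1, h2, add_mul, ite_mul, ite_mul, one_mul, zero_mul]
  rw [Finset.sum_congr rfl fun L _ => this L, Finset.sum_add_distrib,
    Finset.sum_ite_eq' univ (sl 0 0), Finset.sum_ite_eq' univ (sl 1 1), if_pos (mem_univ _),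
    if_pos (mem_univ _)]

theorem slC_inj : ∀ a r c d : Fin 2, sl a r = sl c d ↔ a = c ∧ r = d := by decide

theorem slC_ne : ∀ a r : Fin 2, sl a r ≠ {0, 1} ∧ sl a r ≠ {2, 3} := by decide

theorem muC_sl (a r c d : Fin 2) : mu K (sl a r) c d = if a = c ∧ r = d then 1 else 0 := by
  unfold mu
  simp only [slC_inj]

theorem muC_01 : mu K ({0, 1} : Finset (Fin 4)) = 0 := by
  ext a r
  unfold mu
  rw [if_neg (slC_ne a r).1.symm]
  rfl

theorem muC_23 : mu K ({2, 3} : Finset (Fin 4)) = 0 := by
  ext a r
  unfold mu
  rw [if_neg (slC_ne a r).2.symm]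
  rfl

theorem ne_01_23 : ({0, 1} : Finset (Fin 4)) ≠ {2, 3} := by decide

/-- The entries of the sum over the words. -/
theorem KW_core [CharP K 2] (b : ι → Finset (Fin 4)) (A B : Finset ι) : ∀ W : List ι, W.Nodup →
    ∀ k i : Fin 2,
    (Even W.length →
      (∀ s, KW K b A B W k i (Sum.inr s) = 0) ∧
      KW K b A B W k i (Sum.inl 0) = (if k = i then (tv K A B W).1 else 0)
        + (if k = 0 ∧ i = 0 then (dv K A B W).1 else 0) ∧
      KW K b A B W k i (Sum.inl 1) = (if k = 0 ∧ i = 1 then (dv K A B W).1 else 0) ∧
      KW K b A B W k i (Sum.inl 3) = (if k = i then (tv K A B W).2 else 0)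
        + (if k = 0 ∧ i = 0 then (dv K A B W).2 else 0) ∧
      KW K b A B W k i (Sum.inl 2) = (if k = 0 ∧ i = 1 then (dv K A B W).2 else 0)) ∧
    (¬ Even W.length →
      (∀ s, KW K b A B W k i (Sum.inl s) = 0) ∧
      KW K b A B W k i (Sum.inr 2) = (if k = i then (tv K A B W).1 else 0)
        + (if k = 0 ∧ i = 0 then (dv K A B W).1 else 0) ∧
      KW K b A B W k i (Sum.inr 3) = (if k = 0 ∧ i = 1 then (dv K A B W).1 else 0) ∧
      KW K b A B W k i (Sum.inr 1) = (if k = i then (tv K A B W).2 else 0)
        + (if k = 0 ∧ i = 0 then (dv K A B W).2 else 0) ∧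
      KW K b A B W k i (Sum.inr 0) = (if k = 0 ∧ i = 1 then (dv K A B W).2 else 0))
  | [], _, k, i => by
    refine ⟨fun _ => ?_, fun h => absurd Even.zero h⟩
    simp [KW, words_nil, gprod, tv, dv, MM, Matrix.one_apply]
  | x :: W, hW, k, i => by
    have hx : x ∉ W := (List.nodup_cons.1 hW).1
    have IH := KW_core b A B W (List.nodup_cons.1 hW).2 k
    have two : ∀ a : K, a + a = 0 := CharTwo.add_self_eq_zero
    constructor
    · intro he
      have hodd : ¬ Even W.length := by
        rw [List.length_cons, Nat.even_add_one] at he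
        exact he
      have hn : (W.length : K) = 1 := by
        obtain ⟨k, hk⟩ := Nat.not_even_iff_odd.1 hodd
        rw [hk]
        push_cast
        rw [CharTwo.two_eq_zero]
        simp
      have z : ∀ (j : Fin 2) (L : Finset (Fin 4)) (s : II), ∑ c, gam K L s (Sum.inl c)
          * KW K b A B W k j (Sum.inl c) = 0 := fun j L s => by
        simp [((IH j).2 hodd).1]
      have st := fun (j : Fin 2) (L : Finset (Fin 4)) =>
        step_odd (K := K) L fun c => KW K b A B W k j (Sum.inr c)
      refine ⟨?_, ?_, ?_, ?_, ?_⟩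
      · intro s
        rw [KW_cons hx]
        simp [((IH _).2 hodd).1, gam_rr]
      all_goals
        rw [KW_cons hx]
        simp only [z, zero_add, (st _ _).1, (st _ _).2.1, (st _ _).2.2.1, (st _ _).2.2.2,
          ((IH _).2 hodd).2.1, ((IH _).2 hodd).2.2.1, ((IH _).2 hodd).2.2.2.1,
          ((IH _).2 hodd).2.2.2.2]
        clear st z IH
        by_cases hA : x ∈ A
        · by_cases hB : x ∈ B
          · rw [sum_loc_tt hA hB]
            simp only [tv, dv, hA, hB, if_true, muC_23, ne_01_23.symm, if_false, Matrix.trace_zero,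
              Matrix.zero_apply]
            fin_cases k <;> fin_cases i <;> simp
          · rw [sum_loc_tf hA hB]
            simp only [tv, dv, hA, hB, if_true, if_false, muC_sl, (slC_ne _ _).1, (slC_ne _ _).2,
              Matrix.trace_fin_two]
            fin_cases k <;> fin_cases i <;> simp [two]
        · by_cases hB : x ∈ B
          · rw [sum_loc_ft hA hB]
            simp only [tv, dv, hA, hB, if_true, if_false, muC_sl, (slC_ne _ _).1, (slC_ne _ _).2,
              Matrix.trace_fin_two, hn]
            fin_cases k <;> fin_cases i <;> simp [two]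
            all_goals grind
          · rw [sum_loc_ff hA hB]
            simp only [tv, dv, hA, hB, if_true, muC_01, ne_01_23, if_false, Matrix.trace_zero,
              Matrix.zero_apply]
            fin_cases k <;> fin_cases i <;> simp
    · intro he
      have heven : Even W.length := by
        rw [List.length_cons, Nat.even_add_one, not_not] at he
        exact he
      have hn : (W.length : K) = 0 := by
        obtain ⟨k, hk⟩ := heven
        rw [hk]
        push_cast
        exact CharTwo.add_self_eq_zero _
      have z : ∀ (j : Fin 2) (L : Finset (Fin 4)) (s : II), ∑ c, gam K L s (Sum.inr c)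
          * KW K b A B W k j (Sum.inr c) = 0 := fun j L s => by
        simp [((IH j).1 heven).1]
      have st := fun (j : Fin 2) (L : Finset (Fin 4)) =>
        step_even (K := K) L fun c => KW K b A B W k j (Sum.inl c)
      refine ⟨?_, ?_, ?_, ?_, ?_⟩
      · intro s
        rw [KW_cons hx]
        simp [((IH _).1 heven).1, gam_ll]
      all_goals
        rw [KW_cons hx]
        simp only [z, add_zero, (st _ _).1, (st _ _).2.1, (st _ _).2.2.1, (st _ _).2.2.2,
          ((IH _).1 heven).2.1, ((IH _).1 heven).2.2.1, ((IH _).1 heven).2.2.2.1,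
          ((IH _).1 heven).2.2.2.2]
        clear st z IH
        by_cases hA : x ∈ A
        · by_cases hB : x ∈ B
          · rw [sum_loc_tt hA hB]
            simp only [tv, dv, hA, hB, if_true, muC_23, ne_01_23.symm, if_false, Matrix.trace_zero,
              Matrix.zero_apply]
            fin_cases k <;> fin_cases i <;> simp
          · rw [sum_loc_tf hA hB]
            simp only [tv, dv, hA, hB, if_true, if_false, muC_sl, (slC_ne _ _).1, (slC_ne _ _).2,
              Matrix.trace_fin_two]
            fin_cases k <;> fin_cases i <;> simp [two]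
        · by_cases hB : x ∈ B
          · rw [sum_loc_ft hA hB]
            simp only [tv, dv, hA, hB, if_true, if_false, muC_sl, (slC_ne _ _).1, (slC_ne _ _).2,
              Matrix.trace_fin_two, hn]
            fin_cases k <;> fin_cases i <;> simp [two]
            all_goals grind
          · rw [sum_loc_ff hA hB]
            simp only [tv, dv, hA, hB, if_true, muC_01, ne_01_23, if_false, Matrix.trace_zero,
              Matrix.zero_apply]
            fin_cases k <;> fin_cases i <;> simp

/-- The traces against the entry `(inl 3, inl 0)`. -/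
theorem trace_core [CharP K 2] (b : ι → Finset (Fin 4)) (A B : Finset ι) {W : List ι}
    (hW : W.Nodup) (he : Even W.length) :
    ∑ l ∈ words b W, (MM K B A l W).trace * gprod K l W (Sum.inl 3) (Sum.inl 0)
      = (dv K A B W).2 := by
  have h : ∀ i : Fin 2, ∑ l ∈ words b W, MM K B A l W i i * gprod K l W (Sum.inl 3) (Sum.inl 0)
      = KW K b A B W i i (Sum.inl 3) := fun i => rfl
  have h0 := ((KW_core (K := K) b A B W hW 0 0).1 he).2.2.2.1
  have h1 := ((KW_core (K := K) b A B W hW 1 1).1 he).2.2.2.1
  simp only [Matrix.trace_fin_two, add_mul, Finset.sum_add_distrib, h, h0, h1]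
  simp only [if_true, and_self, one_ne_zero, if_false]
  have two : ∀ a : K, a + a = 0 := CharTwo.add_self_eq_zero
  grind

end Words

end D81877W
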