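import Pool.Agent.Lib.MP_d81877_alW.Pair
import Pool.Agent.Lib.MP_d81877_alW.Br

/-!
MP_d81877_al, part D, [T3]: the chain words of increasing lists are first members of pairs.
-/

namespace D81877W

open Finset Function D81877ZF D81877M MP_d81877_alI Matrix

set_option linter.unusedSectionVars false

variable {ι : Type*} [LinearOrder ι] {K : Type*} [Field K]

theorem outs_eq [Fintype ι] (V X : Finset ι) :
    outs V X = univ.filter fun S : Fin 4 → Finset ι =>
      ∀ x, x ∉ X → ltr S x = if x ∈ V then {0, 1} else ∅ := by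
  ext S
  rw [mem_outs, mem_filter]
  unfold Out
  simp only [mem_dl, mem_univ, true_and]

theorem p_outs [Fintype ι] [CharP K 2] {V X : Finset ι} (hX : X ⊆ V) (A B : Finset ι)
    (v : WW ι K) (hA : A ⊆ X) (hB : B ⊆ X) :
    D81877M.p V v A B = ∑ S ∈ outs V X, (MM K B A (ltr S) (dl X)).trace * v S := by
  rw [outs_eq, p_eq hA hB hX v]
  rfl

/-- (T3c) from the core identity -/
theorem px_of [Fintype ι] [CharP K 2] {V X : Finset ι} (hX : X ⊆ V)
    (hcore : ∀ A B : Finset ι, A ⊆ X → B ⊆ X →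
      ∑ S ∈ outs V X, (MM K B A (ltr S) (dl X)).trace
        * gprod K (ltr S) (dl X) (Sum.inl 3) (Sum.inl 0) = (dv K A B (dl X)).2)
    {t a : List ι → Z ι K} (h : IsRec V t a) :
    D81877M.p V (chain K V (dl X)) = D V (a (X.sort (· ≤ ·))) := by
  classical
  have hd : D V (a (X.sort (· ≤ ·))) = lift (dl X) (fun A B => (dv K A B (dl X)).2) := by
    rw [← dl_reverse]
    exact (rec_dv h (dl X) (dl_pairwise X) fun x hx => hX (mem_dl.1 hx)).2
  rw [hd]
  funext A B
  unfold lift
  rw [dl_toFinset]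
  by_cases hAB : A ⊆ X ∧ B ⊆ X
  · rw [if_pos hAB, p_outs hX A B _ hAB.1 hAB.2]
    refine Eq.trans ?_ (hcore A B hAB.1 hAB.2)
    refine sum_congr rfl fun S hS => ?_
    congr 1
    unfold chain chainE
    rw [if_pos]
    exact mem_outs.1 hS
  · rw [if_neg hAB, p_chain_off hAB]

/-- (T3) from the core identity -/
theorem isPair_of [Fintype ι] [CharP K 2] {V X : Finset ι} {b : ℕ} (hX : X ⊆ V)
    (hc : X.card = 2 * b + 2)
    (hcore : ∀ A B : Finset ι, A ⊆ X → B ⊆ X →
      ∑ S ∈ outs V X, (MM K B A (ltr S) (dl X)).trace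
        * gprod K (ltr S) (dl X) (Sum.inl 3) (Sum.inl 0) = (dv K A B (dl X)).2)
    {t a : List ι → Z ι K} (h : IsRec V t a) :
    IsPair V b (chain K V (dl X)) (a (X.sort (· ≤ ·))) where
  dm := chain_Dm (dl_nodup X) (fun x hx => hX (mem_dl.1 hx)) (by rw [dl_length, hc])
  hom := h.hom (fun z hz => hX (by simpa using hz)) (by simpa using hc)
  px := px_of hX hcore h
  pair y hy := pair_of hX hc (fun A B v hA hB => p_outs hX A B v hA hB) h hy

end D81877W
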