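import Mathlib

/-!
The matrices `gam` of the letters of the tensor model with four columns, and their commutation
rules with the raising operators.
-/

namespace D81877W

open Finset Function Matrix

set_option linter.unusedSectionVars false

variable {K : Type*} [CommRing K]

/-- Index set of the matrices: the four columns and their duals. -/
abbrev II := Fin 4 ⊕ Fin 4

/-- The matrix of a letter `{a, b}` with complement `{c, d}`: it exchanges `a` and `b` from the
first to the second copy, and `c` and `d` from the second to the first. -/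
def gam (K : Type*) [CommRing K] (l : Finset (Fin 4)) : Matrix II II K := fun p q =>
  match p, q with
  | Sum.inr a, Sum.inl b => if a ≠ b ∧ l = {a, b} then 1 else 0
  | Sum.inl c, Sum.inr d => if c ≠ d ∧ lᶜ = {c, d} then 1 else 0
  | Sum.inl _, Sum.inl _ => 0
  | Sum.inr _, Sum.inr _ => 0

/-- The raising operator on the index set. -/
def rho (K : Type*) [CommRing K] (j j' : Fin 4) : Matrix II II K := fun p q =>
  match p, q with
  | Sum.inl a, Sum.inl b => if a = j ∧ b = j' then 1 else 0
  | Sum.inr a, Sum.inr b => if a = j' ∧ b = j then 1 else 0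
  | Sum.inl _, Sum.inr _ => 0
  | Sum.inr _, Sum.inl _ => 0

/-- The letter after a move from the column `j` to the column `j'`. -/
def exl (j j' : Fin 4) (l : Finset (Fin 4)) : Finset (Fin 4) := insert j' (l.erase j)

/-- the same matrices over `ZMod 2`, with decidable values -/
theorem gam_map (K : Type*) [CommRing K] [CharP K 2] (l : Finset (Fin 4)) :
    gam K l = (gam (ZMod 2) l).map (ZMod.castHom (dvd_refl 2) K) := by
  ext p q
  rcases p with a | a <;> rcases q with b | b <;> simp [gam, Matrix.map_apply]

theorem rho_map (K : Type*) [CommRing K] [CharP K 2] (j j' : Fin 4) :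
    rho K j j' = (rho (ZMod 2) j j').map (ZMod.castHom (dvd_refl 2) K) := by
  ext p q
  rcases p with a | a <;> rcases q with b | b <;> simp [rho, Matrix.map_apply]

set_option maxRecDepth 100000 in
theorem rho_gam_zmod : ∀ j j' : Fin 4, (j : ℕ) + 1 = j' → ∀ l : Finset (Fin 4), ∀ p q : II,
    (rho (ZMod 2) j j' * gam (ZMod 2) l + gam (ZMod 2) l * rho (ZMod 2) j j') p q
      = if j ∈ l ∧ j' ∉ l then gam (ZMod 2) (exl j j' l) p q else 0 := by
  decide +kernel

set_option maxRecDepth 100000 in
theorem rho_gam_rho_zmod : ∀ j j' : Fin 4, (j : ℕ) + 1 = j' → ∀ l : Finset (Fin 4), ∀ p q : II,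
    (rho (ZMod 2) j j' * (gam (ZMod 2) l * rho (ZMod 2) j j')) p q = 0 := by
  decide +kernel

set_option maxRecDepth 100000 in
theorem rho_sq_zmod : ∀ j j' : Fin 4, (j : ℕ) + 1 = j' → ∀ p q : II,
    (rho (ZMod 2) j j' * rho (ZMod 2) j j') p q = 0 := by
  decide +kernel

end D81877W
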