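import Pool.Agent.Lib.MP_d81877_alW.Chain

/-!
MP_d81877_al, part D, [T3]: two by two matrices attached to the letters, the coefficients of
`θ^X`, `e θ^X` (and of `D` of them) in coordinates, and the comparison with the letter matrices
`gam`.

All lists are decreasing lists of sites (the last element is the smallest site and acts first).
-/

namespace D81877W

open Finset Function Matrix

set_option linter.unusedSectionVars false

variable {ι : Type*} [DecidableEq ι] {K : Type*} [CommRing K]

/-- The letter `{a, 2 + r}`. -/
def sl (a r : Fin 2) : Finset (Fin 4) := {![0, 1] a, ![2, 3] r}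

/-- The matrix unit of a letter with one left and one right column (zero for other letters). -/
def mu (K : Type*) [CommRing K] (l : Finset (Fin 4)) : Matrix (Fin 2) (Fin 2) K :=
  fun a r => if l = sl a r then 1 else 0

/-- The local factor at a site: the matrix unit on `A \ B`, its trace on `B \ A`, the test for
the letter `{2, 3}` on `A ∩ B` and for `{0, 1}` off `A ∪ B`. -/
def loc (K : Type*) [CommRing K] (A B : Finset ι) (l : ι → Finset (Fin 4)) (x : ι) :
    Matrix (Fin 2) (Fin 2) K :=
  if x ∈ A then if x ∈ B then (if l x = {2, 3} then 1 else 0) else mu K (l x)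
  else if x ∈ B then (mu K (l x)).trace • 1 else (if l x = {0, 1} then 1 else 0)

/-- The product of the local factors over a decreasing list, smallest site on the left. -/
def MM (K : Type*) [CommRing K] (A B : Finset ι) (l : ι → Finset (Fin 4)) :
    List ι → Matrix (Fin 2) (Fin 2) K
  | [] => 1
  | x :: W => MM K A B l W * loc K A B l x

/-- Coefficients of `ε_A f_B` in `θ^W` and in `e θ^W`, for a decreasing list `W` with
`A ∪ B ⊆ W`. -/
def tv (K : Type*) [CommRing K] (A B : Finset ι) : List ι → K × K
  | [] => (1, 0)
  | x :: W =>
    if x ∈ A then
      if x ∈ B then ((tv K A B W).2, 0) else ((tv K A B W).1, (tv K A B W).2)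
    else
      if x ∈ B then ((W.length : K) * (tv K A B W).1, ((W.length : K) + 1) * (tv K A B W).2)
      else (0, (tv K A B W).1)

/-- Coefficients of `ε_A f_B` in `D θ^W` and in `D e θ^W`. -/
def dv (K : Type*) [CommRing K] (A B : Finset ι) : List ι → K × K
  | [] => (0, 0)
  | x :: W =>
    if x ∈ A then
      if x ∈ B then ((dv K A B W).2, 0) else ((dv K A B W).1, (dv K A B W).2)
    else
      if x ∈ B then ((W.length : K) * (dv K A B W).1 + (tv K A B W).1,
        ((W.length : K) + 1) * (dv K A B W).2 + (tv K A B W).2)
      else (0, (dv K A B W).1)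

end D81877W
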