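import Pool.Agent.Lib.MP_d81877_alW.Final
import Pool.Agent.Lib.MP_d81877_alW.CoreC

/-!
MP_d81877_al, part D, [T3]: the core identity, and the chain words as first members of pairs.
-/

namespace D81877W

open Finset Function Matrix MP_d81877_alI D81877ZF D81877M

set_option linter.unusedSectionVars false

variable {ι : Type*} [LinearOrder ι] {K : Type*} [Field K]

/-- The core identity. -/
theorem hcore [Fintype ι] [CharP K 2] (V X : Finset ι) (he : Even X.card) (A B : Finset ι) :
    ∑ S ∈ outs V X, (MM K B A (ltr S) (dl X)).trace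
      * gprod K (ltr S) (dl X) (Sum.inl 3) (Sum.inl 0) = (dv K A B (dl X)).2 := by
  classical
  have hl : Even (dl X).length := by rw [dl_length]; exact he
  have h := trace_core (K := K) (fun x => if x ∈ V then {0, 1} else ∅) A B (dl_nodup X) hl
  rw [← sum_ltr] at h
  rw [← h, outs_eq]
  refine Finset.sum_congr ?_ fun _ _ => rfl
  ext S
  simp only [mem_filter, mem_univ, true_and, mem_dl]

/-- [T3] The chain word of an increasing list and the element `a` form a pair. -/
theorem isPair_chain [Fintype ι] [CharP K 2] {V X : Finset ι} {b : ℕ} (hX : X ⊆ V)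
    (hc : X.card = 2 * b + 2) {t a : List ι → Z ι K} (h : IsRec V t a) :
    IsPair V b (chain K V (dl X)) (a (X.sort (· ≤ ·))) :=
  isPair_of hX hc (fun A B _ _ => hcore V X (by rw [hc]; exact ⟨b + 1, by ring⟩) A B) h

/-- [T3] -/
theorem chn [Fintype ι] [CharP K 2] {V : Finset ι} {b : ℕ} {t a : List ι → Z ι K}
    (h : IsRec V t a) : Chn V b a :=
  fun X hX hc => ⟨chain K V (dl X), isPair_chain hX hc h⟩

end D81877W
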