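import Pool.Agent.Lib.MP_d81877_alW.Chain

/-!
MP_d81877_al, part D, [T3]: the shape of the chain words.
-/

namespace D81877W

open Finset Function MP_d81877_alI Matrix

set_option linter.unusedSectionVars false

variable {ι : Type*} [DecidableEq ι] {K : Type*} [CommRing K]

/-- The weight of an index. -/
def wgt (p : II) (j : Fin 4) : ℤ :=
  match p with
  | Sum.inl a => if j = a then -2 else 0
  | Sum.inr a => if j = a then 1 else -1

theorem wgt_dec1 : ∀ a b j : Fin 4, a ≠ b →
    (if j ∈ ({a, b} : Finset (Fin 4)) then (1 : ℤ) else -1)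
      = wgt (Sum.inr a) j - wgt (Sum.inl b) j := by
  decide

theorem wgt_dec2 : ∀ a b j : Fin 4, a ≠ b → ∀ l : Finset (Fin 4), lᶜ = {a, b} →
    (if j ∈ l then (1 : ℤ) else -1) = wgt (Sum.inl a) j - wgt (Sum.inr b) j := by
  decide

theorem gam_wgt {l : Finset (Fin 4)} {p q : II} (h : gam K l p q ≠ 0) (j : Fin 4) :
    (if j ∈ l then (1 : ℤ) else -1) = wgt p j - wgt q j := by
  rcases p with a | a <;> rcases q with b | b
  · exact absurd rfl h
  · have h1 : a ≠ b ∧ lᶜ = {a, b} := by
      by_contra hc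
      exact h (if_neg hc)
    exact wgt_dec2 a b j h1.1 l h1.2
  · have h1 : a ≠ b ∧ l = {a, b} := by
      by_contra hc
      exact h (if_neg hc)
    rw [h1.2]
    exact wgt_dec1 a b j h1.1
  · exact absurd rfl h

/-- The columns of the letters in a nonzero entry of an ordered product. -/
theorem gprod_wgt (l : ι → Finset (Fin 4)) (q : II) (j : Fin 4) : ∀ (Q : List ι) (p : II),
    gprod K l Q p q ≠ 0 →
    (Q.map fun x => if j ∈ l x then (1 : ℤ) else -1).sum = wgt p j - wgt q j
  | [], p, h => by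
    have : p = q := by
      by_contra hc
      exact h (by simp [gprod, Matrix.one_apply, hc])
    subst this
    simp
  | x :: Q, p, h => by
    rw [gprod_cons, Matrix.mul_apply] at h
    obtain ⟨r, -, hr⟩ := Finset.exists_ne_zero_of_sum_ne_zero h
    have h1 := gam_wgt (left_ne_zero_of_mul hr) j
    have h2 := gprod_wgt l q j Q r (right_ne_zero_of_mul hr)
    rw [List.map_cons, List.sum_cons, h1, h2]
    ring

theorem sum_pm (P : ι → Prop) [DecidablePred P] : ∀ Q : List ι, Q.Nodup →
    (Q.map fun x => if P x then (1 : ℤ) else -1).sum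
      = 2 * ((Q.toFinset.filter P).card : ℤ) - Q.length
  | [], _ => by simp
  | x :: Q, h => by
    have hx : x ∉ Q := (List.nodup_cons.1 h).1
    have ih := sum_pm P Q (List.nodup_cons.1 h).2
    rw [List.map_cons, List.sum_cons, ih, List.toFinset_cons, filter_insert, List.length_cons]
    by_cases hP : P x
    · rw [if_pos hP, if_pos hP, card_insert_of_notMem (by simp [hx])]
      push_cast
      ring
    · rw [if_neg hP, if_neg hP]
      push_cast
      ring

/-- The number of letters of the column `j` in a nonzero entry. -/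
theorem gprod_card {l : ι → Finset (Fin 4)} {p q : II} {Q : List ι} (hQ : Q.Nodup)
    (h : gprod K l Q p q ≠ 0) (j : Fin 4) :
    2 * ((Q.toFinset.filter fun x => j ∈ l x).card : ℤ) = Q.length + wgt p j - wgt q j := by
  have h1 := gprod_wgt l q j Q p h
  rw [sum_pm (fun x => j ∈ l x) Q hQ] at h1
  linarith

/-- The letters off the list. -/
def Out (V : Finset ι) (Q : List ι) (S : Fin 4 → Finset ι) : Prop :=
  ∀ x, x ∉ Q → ltr S x = if x ∈ V then {0, 1} else ∅

theorem out_sub {V : Finset ι} {Q : List ι} {S : Fin 4 → Finset ι} (hV : ∀ x ∈ Q, x ∈ V)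
    (h : Out V Q S) (j : Fin 4) : S j ⊆ V := by
  intro x hx
  by_contra hc
  have h1 := h x fun hq => hc (hV x hq)
  rw [if_neg hc] at h1
  have h2 : j ∈ ltr S x := mem_ltr.2 hx
  rw [h1] at h2
  simp at h2

theorem out_card {V : Finset ι} {Q : List ι} {S : Fin 4 → Finset ι} (hQ : Q.Nodup)
    (hV : ∀ x ∈ Q, x ∈ V) (h : Out V Q S) (j : Fin 4) :
    (S j).card = (Q.toFinset.filter fun x => j ∈ ltr S x).card
      + if j = 0 ∨ j = 1 then V.card - Q.length else 0 := by
  have h1 : (S j).card = ((S j).filter fun x => x ∈ Q).card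
      + ((S j).filter fun x => ¬ x ∈ Q).card :=
    (card_filter_add_card_filter_not (s := S j) fun x => x ∈ Q).symm
  rw [h1]
  have h2 : ((S j).filter fun x => x ∈ Q) = Q.toFinset.filter fun x => j ∈ ltr S x := by
    ext x
    simp [mem_ltr, and_comm]
  rw [h2]
  congr 1
  have h3 : ∀ x, x ∉ Q → (x ∈ S j ↔ x ∈ V ∧ (j = 0 ∨ j = 1)) := by
    intro x hx
    rw [← mem_ltr, h x hx]
    by_cases hxV : x ∈ V <;> simp [hxV]
  split_ifs with hj
  · have h4 : ((S j).filter fun x => ¬ x ∈ Q) = V \ Q.toFinset := by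
      ext x
      simp only [mem_filter, mem_sdiff, List.mem_toFinset]
      constructor
      · rintro ⟨h5, h6⟩
        exact ⟨((h3 x h6).1 h5).1, h6⟩
      · rintro ⟨h5, h6⟩
        exact ⟨(h3 x h6).2 ⟨h5, hj⟩, h6⟩
    rw [h4, card_sdiff_of_subset (fun x hx => hV x (List.mem_toFinset.1 hx)),
      List.toFinset_card_of_nodup hQ]
  · rw [card_eq_zero, filter_eq_empty_iff]
    intro x hx hxQ
    exact hj ((h3 x hxQ).1 hx).2

theorem length_le {V : Finset ι} {Q : List ι} (hQ : Q.Nodup) (hV : ∀ x ∈ Q, x ∈ V) :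
    Q.length ≤ V.card := by
  rw [← List.toFinset_card_of_nodup hQ]
  exact card_le_card fun x hx => hV x (List.mem_toFinset.1 hx)

/-- the chain words have the right shape -/
theorem chain_shp {K : Type*} [Field K] {V : Finset ι} {Q : List ι} {b : ℕ} (hQ : Q.Nodup)
    (hV : ∀ x ∈ Q, x ∈ V) (hl : Q.length = 2 * b + 2) (S : Fin 4 → Finset ι)
    (hS : ¬ Shp V b S) : chain K V Q S = 0 := by
  classical
  unfold chain chainE
  by_cases h : ∀ x, x ∉ Q → ltr S x = if x ∈ V then {0, 1} else ∅
  · rw [if_pos h]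
    by_contra hne
    refine hS ⟨out_sub hV h, ?_⟩
    have hc := out_card hQ hV h
    have hg := gprod_card hQ hne
    have hle := length_le hQ hV
    have h0 := hc 0
    have h1 := hc 1
    have h2 := hc 2
    have h3 := hc 3
    have g0 := hg 0
    have g1 := hg 1
    have g2 := hg 2
    have g3 := hg 3
    simp [wgt] at g0 g1 g2 g3 h0 h1 h2 h3
    omega
  · rw [if_neg h]

/-- a word of the right shape has zero entry between `(inl 2, inl 1)` -/
theorem entry_zero {V : Finset ι} {Q : List ι} {b : ℕ} (hQ : Q.Nodup)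
    (hV : ∀ x ∈ Q, x ∈ V) (hl : Q.length = 2 * b + 2) {S : Fin 4 → Finset ι}
    (hS : Shp V b S) (h : Out V Q S) :
    gprod K (ltr S) Q (Sum.inl 2) (Sum.inl 1) = 0 := by
  by_contra hne
  have hc := out_card hQ hV h
  have hg := gprod_card hQ hne
  have hle := length_le hQ hV
  have h0 := hc 0
  have g0 := hg 0
  have s0 := hS.2.1
  simp [wgt] at g0 h0
  omega

theorem chain_Dm {K : Type*} [Field K] [CharP K 2] {V : Finset ι} {Q : List ι} {b : ℕ}
    (hQ : Q.Nodup) (hV : ∀ x ∈ Q, x ∈ V) (hl : Q.length = 2 * b + 2) : Dm V b (chain K V Q) where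
  shp S hS := chain_shp hQ hV hl S hS
  prm := chain_primitive V hQ

end D81877W
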