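import Pool.Agent.Lib.MP_d81877_alW.CoreB
import Pool.Agent.Lib.MP_d81877_alM.Base

/-!
MP_d81877_al, part D, [T3]: the functions `t`, `a` of increasing lists, and `D` of them, in
coordinates (`tv` and `dv`).
-/

namespace D81877W

open Finset Function D81877ZF D81877M

variable {ι : Type*} [LinearOrder ι] {K : Type*} [Field K]

/-- a function given by coefficients supported on the subsets of a list -/
def lift (W : List ι) (F : Finset ι → Finset ι → K) : Z ι K := fun A B =>
  if A ⊆ W.toFinset ∧ B ⊆ W.toFinset then F A B else 0

theorem d_lift {W : List ι} {F : Finset ι → Finset ι → K} {u : ι} (hu : u ∉ W) :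
    d u (lift W F) = 0 := by
  funext A B
  rw [d_apply]
  split_ifs with h
  · rfl
  · unfold lift
    rw [if_neg]
    · rfl
    · rintro ⟨h1, -⟩
      exact hu (List.mem_toFinset.1 (h1 (mem_insert_self _ _)))

theorem EE_lift {V : Finset ι} {W : List ι} {F : Finset ι → Finset ι → K} {x : ι}
    (hx : ∀ y ∈ W, y < x) : EE V x (lift W F) = th x (lift W F) := by
  unfold EE
  rw [LinearMap.add_apply, Module.End.mul_apply, LinearMap.sum_apply, sum_eq_zero, map_zero,
    add_zero]
  intro u hu
  rw [Module.End.mul_apply, d_lift, map_zero]
  intro h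
  exact lt_asymm (hx u h) (mem_filter.1 hu).2

theorem sub_cons_iff {x : ι} {W : List ι} {A : Finset ι} :
    A ⊆ (x :: W).toFinset ↔ A.erase x ⊆ W.toFinset := by
  rw [List.toFinset_cons]
  constructor
  · intro h y hy
    rw [mem_erase] at hy
    rcases mem_insert.1 (h hy.2) with h1 | h1
    · exact absurd h1 hy.1
    · exact h1
  · intro h y hy
    rw [mem_insert]
    by_cases h1 : y = x
    · exact Or.inl h1
    · exact Or.inr (h (mem_erase.2 ⟨h1, hy⟩))

theorem sub_iff {x : ι} {W : List ι} {A : Finset ι} (hxA : x ∉ A) :
    A ⊆ (x :: W).toFinset ↔ A ⊆ W.toFinset := by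
  rw [sub_cons_iff, erase_eq_of_notMem hxA]

theorem not_sub {x : ι} {W : List ι} {A : Finset ι} (hx : x ∉ W) (hxA : x ∈ A) :
    ¬ A ⊆ W.toFinset := fun h => hx (List.mem_toFinset.1 (h hxA))

theorem tv_erase {A B : Finset ι} {x : ι} {W : List ι} (hx : x ∉ W) :
    tv K (A.erase x) (B.erase x) W = tv K A B W := by
  refine tv_congr W fun y hy => ?_
  have : y ≠ x := by rintro rfl; exact hx hy
  simp [this]

theorem dv_erase {A B : Finset ι} {x : ι} {W : List ι} (hx : x ∉ W) :
    dv K (A.erase x) (B.erase x) W = dv K A B W := by
  refine dv_congr W fun y hy => ?_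
  have : y ≠ x := by rintro rfl; exact hx hy
  simp [this]

theorem tv_eA {A B : Finset ι} {x : ι} {W : List ι} (hx : x ∉ W) :
    tv K (A.erase x) B W = tv K A B W := by
  refine tv_congr W fun y hy => ?_
  have : y ≠ x := by rintro rfl; exact hx hy
  simp [this]

theorem tv_eB {A B : Finset ι} {x : ι} {W : List ι} (hx : x ∉ W) :
    tv K A (B.erase x) W = tv K A B W := by
  refine tv_congr W fun y hy => ?_
  have : y ≠ x := by rintro rfl; exact hx hy
  simp [this]

theorem dv_eA {A B : Finset ι} {x : ι} {W : List ι} (hx : x ∉ W) :
    dv K (A.erase x) B W = dv K A B W := by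
  refine dv_congr W fun y hy => ?_
  have : y ≠ x := by rintro rfl; exact hx hy
  simp [this]

theorem dv_eB {A B : Finset ι} {x : ι} {W : List ι} (hx : x ∉ W) :
    dv K A (B.erase x) W = dv K A B W := by
  refine dv_congr W fun y hy => ?_
  have : y ≠ x := by rintro rfl; exact hx hy
  simp [this]

/-- the words of increasing lists in coordinates -/
theorem rec_tv {V : Finset ι} {t a : List ι → Z ι K} (h : IsRec V t a) : ∀ W : List ι,
    W.Pairwise (· > ·) →
    t W.reverse = lift W (fun A B => (tv K A B W).1) ∧
    a W.reverse = lift W (fun A B => (tv K A B W).2)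
  | [], _ => by
    rw [List.reverse_nil, h.t_nil, h.a_nil]
    constructor
    · funext A B
      simp [vac, lift, tv]
    · funext A B
      simp [lift, tv]
  | x :: W, hW => by
    rw [List.pairwise_cons] at hW
    obtain ⟨ht, ha⟩ := rec_tv h W hW.2
    have hxW : x ∉ W := fun hh => lt_irrefl _ (hW.1 x hh)
    have hE : ∀ F : Finset ι → Finset ι → K, EE V x (lift W F) = th x (lift W F) :=
      fun F => EE_lift hW.1
    rw [List.reverse_cons, h.t_snoc, h.a_snoc, ht, ha, hE, hE, List.length_reverse]
    constructor
    · funext A B
      simp only [Pi.add_apply, Pi.smul_apply, th_apply, f_apply, smul_eq_mul, lift, tv]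
      by_cases hxA : x ∈ A
      · by_cases hxB : x ∈ B
        · simp only [hxA, hxB, if_true, not_sub hxW hxA, not_sub hxW hxB, and_false, false_and,
            if_false, mul_zero, zero_add, tv_erase hxW, sub_cons_iff]
        · simp only [hxA, hxB, if_true, if_false, mul_zero, add_zero, tv_eA hxW]
          simp only [sub_iff hxB]
          simp only [sub_cons_iff]
      · by_cases hxB : x ∈ B
        · simp only [hxA, hxB, if_true, if_false, zero_add, add_zero, tv_eB hxW, mul_ite, mul_zero]
          simp only [sub_iff hxA]
          simp only [sub_cons_iff]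
        · simp only [hxA, hxB, if_false, mul_zero, add_zero, ite_self]
    · funext A B
      simp only [Pi.add_apply, Pi.smul_apply, th_apply, f_apply, smul_eq_mul, lift, tv]
      by_cases hxA : x ∈ A
      · by_cases hxB : x ∈ B
        · simp only [hxA, hxB, if_true, not_sub hxW hxA, not_sub hxW hxB, and_false, false_and,
            if_false, mul_zero, add_zero, ite_self]
        · simp only [hxA, hxB, if_true, if_false, not_sub hxW hxA, false_and, mul_zero, add_zero,
            zero_add, tv_eA hxW]
          simp only [sub_iff hxB]
          simp only [sub_cons_iff]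
      · by_cases hxB : x ∈ B
        · simp only [hxA, hxB, if_true, if_false, not_sub hxW hxB, and_false, zero_add, add_zero,
            tv_eB hxW, mul_ite, mul_zero]
          simp only [sub_iff hxA]
          simp only [sub_cons_iff]
          push_cast
          rfl
        · simp only [hxA, hxB, if_false, mul_zero, add_zero]
          simp only [sub_iff hxA, sub_iff hxB]

theorem D_th [CharP K 2] {V : Finset ι} {x : ι} (hx : x ∈ V) (u : Z ι K) :
    D V (th x u) = th x (D V u) + f x u := by
  rw [D_eq]
  have key : (∑ y ∈ V, Dx y : Module.End K (Z ι K)) * th x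
      = th x * (∑ y ∈ V, Dx y) + f x := by
    rw [sum_mul, mul_sum, ← add_sum_erase _ _ hx, ← add_sum_erase _ _ hx, Dx_th_same]
    rw [sum_congr rfl fun y hy => (Dx_th_ne (K := K) (ne_of_mem_erase hy)).eq]
    abel
  have := congrArg (fun R : Module.End K (Z ι K) => R u) key
  simpa [Module.End.mul_apply] using this

theorem D_f {V : Finset ι} (x : ι) (u : Z ι K) : D V (f x u) = f x (D V u) := by
  rw [← Module.End.mul_apply, ← (f_D V x).eq, Module.End.mul_apply]

theorem D_vac (V : Finset ι) : D V (vac : Z ι K) = 0 := by
  rw [D_eq, LinearMap.sum_apply]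
  exact sum_eq_zero fun x _ => Dx_vac x

/-- `D` of the words of increasing lists in coordinates -/
theorem rec_dv [CharP K 2] {V : Finset ι} {t a : List ι → Z ι K} (h : IsRec V t a) :
    ∀ W : List ι, W.Pairwise (· > ·) → (∀ x ∈ W, x ∈ V) →
    D V (t W.reverse) = lift W (fun A B => (dv K A B W).1) ∧
    D V (a W.reverse) = lift W (fun A B => (dv K A B W).2)
  | [], _, _ => by
    rw [List.reverse_nil, h.t_nil, h.a_nil, D_vac, map_zero]
    constructor
    · funext A B
      simp [lift, dv]
    · funext A B
      simp [lift, dv]
  | x :: W, hW, hV => by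
    rw [List.pairwise_cons] at hW
    obtain ⟨ht, ha⟩ := rec_tv h W hW.2
    obtain ⟨dt, da⟩ := rec_dv h W hW.2 fun y hy => hV y (List.mem_cons_of_mem _ hy)
    have hxV : x ∈ V := hV x (List.mem_cons_self ..)
    have hxW : x ∉ W := fun hh => lt_irrefl _ (hW.1 x hh)
    have hE : ∀ F : Finset ι → Finset ι → K, EE V x (lift W F) = th x (lift W F) :=
      fun F => EE_lift hW.1
    have e1 : t (x :: W).reverse = th x (t W.reverse) + (W.length : K) • f x (t W.reverse)
        + f x (th x (a W.reverse)) := by
      rw [List.reverse_cons, h.t_snoc, List.length_reverse, ht, ha, hE, hE]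
    have e2 : a (x :: W).reverse = t W.reverse + th x (a W.reverse)
        + ((W.length + 1 : ℕ) : K) • f x (a W.reverse) := by
      rw [List.reverse_cons, h.a_snoc, List.length_reverse, ha, hE]
    have ff : ∀ u : Z ι K, f x (f x u) = 0 := fun u => by
      rw [← Module.End.mul_apply, f_sq, LinearMap.zero_apply]
    rw [e1, e2]
    simp only [map_add, map_smul, D_th hxV, D_f, ff, add_zero]
    simp only [dt, da]
    simp only [ht, ha]
    constructor
    · funext A B
      simp only [Pi.add_apply, Pi.smul_apply, th_apply, f_apply, smul_eq_mul, lift, dv]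
      by_cases hxA : x ∈ A
      · by_cases hxB : x ∈ B
        · simp only [hxA, hxB, if_true, not_sub hxW hxA, not_sub hxW hxB, and_false, false_and,
            if_false, mul_zero, zero_add, add_zero, dv_erase hxW, sub_cons_iff]
        · simp only [hxA, hxB, if_true, if_false, mul_zero, add_zero, dv_eA hxW]
          simp only [sub_iff hxB]
          simp only [sub_cons_iff]
      · by_cases hxB : x ∈ B
        · simp only [hxA, hxB, if_true, if_false, zero_add, add_zero, dv_eB hxW, tv_eB hxW,
            mul_ite, mul_zero]
          simp only [sub_iff hxA]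
          simp only [sub_cons_iff]
          split_ifs
          · ring
          · rw [add_zero]
        · simp only [hxA, hxB, if_false, mul_zero, add_zero, ite_self]
    · funext A B
      simp only [Pi.add_apply, Pi.smul_apply, th_apply, f_apply, smul_eq_mul, lift, dv]
      by_cases hxA : x ∈ A
      · by_cases hxB : x ∈ B
        · simp only [hxA, hxB, if_true, not_sub hxW hxA, not_sub hxW hxB, and_false, false_and,
            if_false, mul_zero, add_zero, ite_self]
        · simp only [hxA, hxB, if_true, if_false, not_sub hxW hxA, false_and, mul_zero, add_zero,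
            zero_add, dv_eA hxW]
          simp only [sub_iff hxB]
          simp only [sub_cons_iff]
      · by_cases hxB : x ∈ B
        · simp only [hxA, hxB, if_true, if_false, not_sub hxW hxB, and_false, zero_add, add_zero,
            dv_eB hxW, tv_eB hxW, mul_ite, mul_zero]
          simp only [sub_iff hxA]
          simp only [sub_cons_iff]
          push_cast
          split_ifs
          · ring
          · rw [add_zero]
        · simp only [hxA, hxB, if_false, mul_zero, add_zero]
          simp only [sub_iff hxA, sub_iff hxB]

end D81877W
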