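import Pool.Agent.Lib.MP_d81877_alW.CoreB2
import Pool.Agent.Lib.MP_d81877_alW.Shape
import Pool.Agent.Lib.MP_d81877_alW.ZSide

/-!
MP_d81877_al, part D, [T3]: the pairing of a chain word with a primitive function.
-/

namespace D81877W

open Finset Function D81877ZF D81877M MP_d81877_alI Matrix

set_option linter.unusedSectionVars false

variable {ι : Type*} [LinearOrder ι] {K : Type*} [Field K]

/-- the decreasing list of a set -/
def dl (X : Finset ι) : List ι := (X.sort (· ≤ ·)).reverse

theorem dl_nodup (X : Finset ι) : (dl X).Nodup := List.nodup_reverse.2 (Finset.sort_nodup _ _)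

theorem mem_dl {X : Finset ι} {x : ι} : x ∈ dl X ↔ x ∈ X := by simp [dl]

theorem dl_toFinset (X : Finset ι) : (dl X).toFinset = X := by
  ext x
  simp [dl]

theorem dl_reverse (X : Finset ι) : (dl X).reverse = X.sort (· ≤ ·) := by simp [dl]

theorem dl_length (X : Finset ι) : (dl X).length = X.card := by simp [dl]

theorem dl_pairwise (X : Finset ι) : (dl X).Pairwise (· > ·) := by
  unfold dl
  rw [List.pairwise_reverse]
  exact (Finset.sortedLT_sort X).pairwise

theorem trace_sA [CharP K 2] {V X : Finset ι} {b : ℕ} (hX : X ⊆ V) (hc : X.card = 2 * b + 2)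
    {S : Fin 4 → Finset ι} (hS : Shp V b S) (h : Out V (dl X) S) :
    gprod K (ltr S) (dl X) (Sum.inl 3) (Sum.inl 0) = (sA K (ltr S) (dl X)).trace := by
  have hl : (dl X).length = 2 * b + 2 := by rw [dl_length, hc]
  have he : Even (dl X).length := by
    rw [hl]
    exact ⟨b + 1, by ring⟩
  have h0 := ((gprod_core (K := K) (ltr S) 0 (dl X) (dl_nodup X)).1 he).2.2.2.1
  have h1 := ((gprod_core (K := K) (ltr S) 1 (dl X) (dl_nodup X)).1 he).2.2.2.2
  have h2 : gprod K (ltr S) (dl X) (Sum.inl 2) (Sum.inl 1) = 0 :=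
    entry_zero (dl_nodup X) (fun x hx => hX (mem_dl.1 hx)) hl hS h
  simp only [Matrix.cons_val_zero, Matrix.cons_val_one] at h0 h1
  rw [Matrix.trace, Fin.sum_univ_two, Matrix.diag_apply, Matrix.diag_apply, h0, ← h1, h2, add_zero]

/-- the words on a set `X` of sites -/
noncomputable def outs [Fintype ι] (V X : Finset ι) : Finset (Fin 4 → Finset ι) :=
  open Classical in univ.filter fun S => Out V (dl X) S

theorem mem_outs [Fintype ι] {V X : Finset ι} {S : Fin 4 → Finset ι} :
    S ∈ outs V X ↔ Out V (dl X) S := by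
  simp [outs]

theorem sum_chain [Fintype ι] (V X : Finset ι) (y : WW ι K) :
    ∑ S, chain K V (dl X) S * y S
      = ∑ S ∈ outs V X, gprod K (ltr S) (dl X) (Sum.inl 3) (Sum.inl 0) * y S := by
  classical
  unfold outs
  rw [sum_filter]
  refine sum_congr rfl fun S _ => ?_
  unfold chain chainE Out
  split_ifs <;> simp

/-- (T3b) from the formula for `p` -/
theorem pair_of [Fintype ι] [CharP K 2] {V X : Finset ι} {b : ℕ} (hX : X ⊆ V)
    (hc : X.card = 2 * b + 2)
    (hp : ∀ (A B : Finset ι) (v : WW ι K), A ⊆ X → B ⊆ X →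
      D81877M.p V v A B = ∑ S ∈ outs V X, (MM K B A (ltr S) (dl X)).trace * v S)
    {t a : List ι → Z ι K} (h : IsRec V t a) {y : WW ι K} (hy : Dm V b y) :
    ∑ S, chain K V (dl X) S * y S = B0 V (a (X.sort (· ≤ ·))) (D81877M.p V y) := by
  classical
  have ha : a (X.sort (· ≤ ·)) = lift (dl X) (fun A B => (tv K A B (dl X)).2) := by
    rw [← dl_reverse]
    exact (rec_tv h (dl X) (dl_pairwise X)).2
  have e1 : ∀ S ∈ outs V X, gprod K (ltr S) (dl X) (Sum.inl 3) (Sum.inl 0) * y S
      = ∑ A ∈ X.powerset, ∑ B ∈ X.powerset,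
        (tv K A B (dl X)).2 * ((MM K A B (ltr S) (dl X)).trace * y S) := by
    intro S hS
    by_cases hs : Shp V b S
    · rw [trace_sA hX hc hs (mem_outs.1 hS)]
      unfold sA
      rw [dl_toFinset, Matrix.trace_sum, sum_mul]
      refine sum_congr rfl fun A _ => ?_
      rw [Matrix.trace_sum, sum_mul]
      refine sum_congr rfl fun B _ => ?_
      rw [Matrix.trace_smul, smul_eq_mul, mul_assoc]
    · rw [hy.shp S hs]
      simp
  rw [sum_chain, sum_congr rfl e1, sum_comm]
  have e2 : ∀ A ∈ X.powerset, (∑ S ∈ outs V X, ∑ B ∈ X.powerset,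
        (tv K A B (dl X)).2 * ((MM K A B (ltr S) (dl X)).trace * y S))
      = ∑ B ∈ X.powerset, (tv K A B (dl X)).2 * D81877M.p V y B A := by
    intro A hA
    rw [sum_comm]
    refine sum_congr rfl fun B hB => ?_
    rw [hp B A y (mem_powerset.1 hB) (mem_powerset.1 hA), mul_sum]
  rw [sum_congr rfl e2, ha]
  unfold B0
  symm
  have hsub : X.powerset ⊆ V.powerset := powerset_mono.2 hX
  rw [← sum_subset hsub]
  · refine sum_congr rfl fun A hA => ?_
    rw [← sum_subset hsub]
    · refine sum_congr rfl fun B hB => ?_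
      unfold lift
      rw [if_pos]
      rw [dl_toFinset]
      exact ⟨mem_powerset.1 hA, mem_powerset.1 hB⟩
    · intro B _ hB
      unfold lift
      rw [if_neg, zero_mul]
      rw [dl_toFinset]
      exact fun hh => hB (mem_powerset.2 hh.2)
  · intro A _ hA
    refine sum_eq_zero fun B _ => ?_
    unfold lift
    rw [if_neg, zero_mul]
    rw [dl_toFinset]
    exact fun hh => hA (mem_powerset.2 hh.1)

/-- `p` of a chain word vanishes off the subsets of `X` -/
theorem p_chain_off {V X A B : Finset ι} (h : ¬ (A ⊆ X ∧ B ⊆ X)) :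
    D81877M.p V (chain K V (dl X)) A B = 0 := by
  classical
  rw [D81877M.p_apply]
  split_ifs with h1
  · obtain ⟨hA, hB, -⟩ := h1
    have : ∃ x ∈ A ∪ B, x ∉ X := by
      by_contra hcon
      push Not at hcon
      exact h ⟨fun x hx => hcon x (mem_union_left _ hx), fun x hx => hcon x (mem_union_right _ hx)⟩
    obtain ⟨x, hx, hxX⟩ := this
    refine sum_eq_zero fun I _ => ?_
    unfold chain chainE
    rw [if_neg]
    intro hcon
    have hxV : x ∈ V := by
      rcases mem_union.1 hx with h2 | h2
      · exact hA h2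
      · exact hB h2
    have h2 := hcon x (fun hh => hxX (mem_dl.1 hh))
    rw [if_pos hxV] at h2
    have h3 : x ∈ D81877M.tup V A B I (D81877M.cyc (B \ A)) 2
        ∨ x ∈ D81877M.tup V A B I (D81877M.cyc (B \ A)) 3 := by
      unfold D81877M.tup
      simp only [Matrix.cons_val]
      by_cases hAB : x ∈ A ∩ B
      · exact Or.inl (mem_union_left _ hAB)
      · have hs : x ∈ symmDiff A B := by
          rw [mem_symmDiff]
          rw [mem_union] at hx
          rw [mem_inter] at hAB
          tauto
        by_cases hI : x ∈ I.image (D81877M.cyc (B \ A))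
        · exact Or.inr (mem_union_right _ hI)
        · exact Or.inl (mem_union_right _ (mem_sdiff.2 ⟨hs, hI⟩))
    rcases h3 with h3 | h3
    · rw [← mem_ltr, h2] at h3
      simp at h3
    · rw [← mem_ltr, h2] at h3
      simp at h3
  · rfl

end D81877W
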