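import Pool.Agent.Lib.MP_d81877_alW.Br

/-!
MP_d81877_al, part D, [T3]: sums over words as iterated sums over letters.
-/

namespace D81877W

open Finset Function

section ws

variable {ι : Type*} [DecidableEq ι] {K : Type*} [AddCommMonoid K]

/-- the iterated sum over the letters at the sites of a list -/
def ws : List ι → ((ι → Finset (Fin 4)) → K) → (ι → Finset (Fin 4)) → K
  | [], F, l => F l
  | x :: W, F, l => ∑ c : Finset (Fin 4), ws W F (Function.update l x c)

theorem ws_nil (F : (ι → Finset (Fin 4)) → K) (l : ι → Finset (Fin 4)) : ws [] F l = F l := rfl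

theorem ws_cons (x : ι) (W : List ι) (F : (ι → Finset (Fin 4)) → K) (l : ι → Finset (Fin 4)) :
    ws (x :: W) F l = ∑ c : Finset (Fin 4), ws W F (Function.update l x c) := rfl

/-- only the values off the list matter -/
theorem ws_congr (F : (ι → Finset (Fin 4)) → K) (X : Finset ι)
    (hF : ∀ l l', (∀ x ∈ X, l x = l' x) → F l = F l') : ∀ (W : List ι)
    (l l' : ι → Finset (Fin 4)), (∀ x ∈ X, x ∉ W → l x = l' x) → ws W F l = ws W F l'
  | [], l, l', h => hF l l' (fun x hx => h x hx (by simp))
  | x :: W, l, l', h => by
    rw [ws_cons, ws_cons]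
    apply Finset.sum_congr rfl
    intro c _
    apply ws_congr F X hF W
    intro y hy hyW
    by_cases hyx : y = x
    · rw [hyx, update_self, update_self]
    · rw [update_of_ne hyx, update_of_ne hyx]
      exact h y hy (by simp [hyx, hyW])

variable [Fintype ι]

/-- the sum over all letter functions that are prescribed off the list -/
theorem sum_off (F : (ι → Finset (Fin 4)) → K) : ∀ W : List ι, W.Nodup →
    ∀ b : ι → Finset (Fin 4),
      ∑ l ∈ (univ : Finset (ι → Finset (Fin 4))).filter (fun l => ∀ y, y ∉ W → l y = b y), F l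
        = ws W F b
  | [], _, b => by
    rw [ws_nil]
    have : (univ : Finset (ι → Finset (Fin 4))).filter (fun l => ∀ y, y ∉ ([] : List ι) → l y = b y)
        = {b} := by
      ext l
      simp only [List.not_mem_nil, not_false_eq_true, true_implies, mem_filter, mem_univ,
        true_and, mem_singleton]
      exact ⟨fun h => funext h, fun h y => by rw [h]⟩
    rw [this, sum_singleton]
  | x :: W, hW, b => by
    have hx : x ∉ W := (List.nodup_cons.1 hW).1
    rw [ws_cons, ← Finset.sum_fiberwise _ (fun l => l x)]
    apply Finset.sum_congr rfl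
    intro c _
    rw [← sum_off F W (List.nodup_cons.1 hW).2]
    apply Finset.sum_congr _ (fun _ _ => rfl)
    ext l
    simp only [mem_filter, mem_univ, true_and, List.mem_cons, not_or]
    constructor
    · rintro ⟨h1, h2⟩ y hy
      by_cases hyx : y = x
      · rw [hyx, update_self, h2]
      · rw [update_of_ne hyx]
        exact h1 y ⟨hyx, hy⟩
    · intro h
      constructor
      · rintro y ⟨hyx, hy⟩
        rw [h y hy, update_of_ne hyx]
      · rw [h x hx, update_self]

end ws

variable {ι : Type*} [LinearOrder ι] {K : Type*} [AddCommMonoid K]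

/-- the word with given letters -/
def ofl [Fintype ι] (l : ι → Finset (Fin 4)) : Fin 4 → Finset ι :=
  fun j => univ.filter (fun x => j ∈ l x)

theorem ltr_ofl [Fintype ι] (l : ι → Finset (Fin 4)) : ltr (ofl l) = l := by
  funext x
  ext j
  rw [mem_ltr]
  simp [ofl]

theorem ofl_ltr [Fintype ι] (S : Fin 4 → Finset ι) : ofl (ltr S) = S :=
  ltr_injective (ltr_ofl _)

/-- **reindexing**: the sum over the words with prescribed letters off `X` as an iterated sum over
the letters at the sites of `X`. -/
theorem sum_words [Fintype ι] (X V : Finset ι) (F : (ι → Finset (Fin 4)) → K)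
    (hF : ∀ l l', (∀ x ∈ X, l x = l' x) → F l = F l') :
    ∑ S ∈ (univ : Finset (Fin 4 → Finset ι)).filter
        (fun S => ∀ x, x ∉ X → ltr S x = if x ∈ V then {0, 1} else ∅), F (ltr S)
      = ws (X.sort (fun a b => a ≤ b)).reverse F (fun _ => ∅) := by
  have hn : (X.sort (fun a b => a ≤ b)).reverse.Nodup :=
    List.nodup_reverse.2 (Finset.sort_nodup _ _)
  have h1 := sum_off F (X.sort (fun a b => a ≤ b)).reverse hn
    (fun x => if x ∈ V then {0, 1} else ∅)
  have h2 : ws (X.sort (fun a b => a ≤ b)).reverse F (fun _ => ∅)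
      = ws (X.sort (fun a b => a ≤ b)).reverse F (fun x => if x ∈ V then {0, 1} else ∅) := by
    apply ws_congr F X hF
    intro x hx hx'
    exfalso
    apply hx'
    rw [List.mem_reverse, Finset.mem_sort]
    exact hx
  rw [h2, ← h1]
  refine Finset.sum_nbij' ltr ofl ?_ ?_ ?_ ?_ ?_
  · intro S hS
    rw [mem_filter] at hS ⊢
    refine ⟨mem_univ _, fun x hx => hS.2 x ?_⟩
    rw [List.mem_reverse, Finset.mem_sort] at hx
    exact hx
  · intro l hl
    rw [mem_filter] at hl ⊢
    refine ⟨mem_univ _, fun x hx => ?_⟩
    rw [ltr_ofl]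
    apply hl.2
    rw [List.mem_reverse, Finset.mem_sort]
    exact hx
  · intro S _
    exact ofl_ltr S
  · intro l _
    exact ltr_ofl l
  · intro S _
    rfl

end D81877W
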